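import Pool.Agent.MP_5c28a4_al.H89S.Base8

set_option autoImplicit false

namespace Pool.Agent.MP_5c28a4_al.H89S

open scoped commutatorElement

namespace ShA

variable {N : Type} [Group N]

theorem pow_sup {B W : Subgroup N} [W.Normal] {n : ℕ} (h : ∀ x ∈ B, x ^ n ∈ W) {x : N}
    (hx : x ∈ B ⊔ W) : x ^ n ∈ W := by
  obtain ⟨b, hb, y, hy, rfl⟩ := Subgroup.mem_sup_of_normal_right.1 hx
  have h1 := h b hb
  rw [← QuotientGroup.ker_mk' W, MonoidHom.mem_ker] at h1 hy ⊢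
  rw [map_pow, map_mul, hy, mul_one, ← map_pow, h1]

/-- the commutator map is multiplicative in the first entry -/
theorem key {A D W : Subgroup N} [hA : A.Normal] [W.Normal] {M : ℕ} (h1 : ⁅⁅A, D⁆, A⁆ ≤ W)
    (h2 : ∀ a ∈ A, ∀ g ∈ D, ⁅a ^ M, g⁆ ∈ W) {x : N} (hx : x ∈ ⁅A, D⁆) : x ^ M ∈ W := by
  have hc : ∀ y ∈ ⁅A, D⁆, ∀ a ∈ A, Commute (QuotientGroup.mk' W y) (QuotientGroup.mk' W a) := by
    intro y hy a ha
    have := h1 (Subgroup.commutator_mem_commutator hy ha)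
    rw [← QuotientGroup.ker_mk' W, MonoidHom.mem_ker, map_commutatorElement] at this
    exact commutatorElement_eq_one_iff_commute.1 this
  have hle : ⁅A, D⁆ ≤ A := Subgroup.commutator_le_left A D
  rw [← QuotientGroup.ker_mk' W, MonoidHom.mem_ker, map_pow]
  have hx' := hx
  rw [Subgroup.commutator_def] at hx
  induction hx using Subgroup.closure_induction with
  | mem x hx =>
    obtain ⟨a, ha, g, hg, rfl⟩ := hx
    have h3 : ∀ n : ℕ, QuotientGroup.mk' W ⁅a ^ n, g⁆ = QuotientGroup.mk' W ⁅a, g⁆ ^ n := by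
      intro n
      induction n with
      | zero => simp
      | succ n ih =>
        have e : ⁅a ^ (n + 1), g⁆ = a * ⁅a ^ n, g⁆ * a⁻¹ * ⁅a, g⁆ := by
          simp only [commutatorElement_def, pow_succ']
          group
        rw [e, map_mul, map_mul, map_mul,
          ← (hc _ (Subgroup.commutator_mem_commutator (pow_mem ha n) hg) a ha).eq, map_inv,
          mul_inv_cancel_right, ih, pow_succ]
    rw [← h3]
    exact (QuotientGroup.eq_one_iff _).2 (h2 a ha g hg)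
  | one => simp
  | mul x y hx hy ihx ihy => rw [map_mul, (hc x hx y (hle hy)).mul_pow, ihx hx, ihy hy, mul_one]
  | inv x hx ih => rw [map_inv, inv_pow, ih hx, inv_one]

/-- a soluble group whose powers are central has a derived group of finite exponent -/
theorem schur (hs : Group.IsSolvable N) {Y W : Subgroup N} [Y.Normal] [W.Normal] {M : ℕ}
    (hM : 0 < M) (h : ∀ a ∈ Y, ∀ g ∈ Y, ⁅a ^ M, g⁆ ∈ W) :
    ∃ n, 0 < n ∧ ∀ x ∈ ⁅Y, Y⁆, x ^ n ∈ W := by
  obtain ⟨d, hd⟩ := hs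
  have hW : ∀ A B : Subgroup N, A ⊔ W ≤ A ⊔ (B ⊔ W) := fun A B => sup_le_sup_left le_sup_right A
  have main : ∀ t, ∃ X : Subgroup N, X.Normal ∧ X ≤ Y ∧ X ≤ derivedSeries N t ∧
      ∃ n, 0 < n ∧ ∀ x ∈ ⁅Y, Y⁆, x ^ n ∈ ⁅X, X⁆ ⊔ W := by
    intro t
    induction t with
    | zero => exact ⟨Y, inferInstance, le_rfl, le_top, 1, one_pos, fun x hx => by
        simpa using Subgroup.mem_sup_left hx⟩
    | succ t ih =>
      obtain ⟨X, _, h1, h2, n, hn, h3⟩ := ih
      have h4 : ⁅X, X⁆ ≤ X := Subgroup.commutator_le_left X X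
      refine ⟨⁅X, X⁆, inferInstance, h4.trans h1, Subgroup.commutator_mono h2 h2, n * (M * M),
        by positivity, fun x hx => ?_⟩
      have h5 : ∀ y ∈ ⁅⁅X, X⁆, X⁆, y ^ M ∈ ⁅⁅X, X⁆, ⁅X, X⁆⁆ ⊔ W := fun y hy =>
        key ((Subgroup.commutator_mono (Subgroup.commutator_le_left _ _) le_rfl).trans le_sup_left)
          (fun a ha g hg => Subgroup.mem_sup_right (h a (h1 (h4 ha)) g (h1 hg))) hy
      have h6 : ∀ y ∈ ⁅X, X⁆, y ^ M ∈ ⁅⁅X, X⁆, X⁆ ⊔ W := fun y hy =>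
        key le_sup_left (fun a ha g hg => Subgroup.mem_sup_right (h a (h1 ha) g (h1 hg))) hy
      have h7 : ∀ y ∈ ⁅X, X⁆, y ^ (M * M) ∈ ⁅⁅X, X⁆, ⁅X, X⁆⁆ ⊔ W := fun y hy => by
        rw [pow_mul]
        exact pow_sup h5 (hW _ _ (h6 y hy))
      rw [pow_mul]
      exact pow_sup h7 (hW _ _ (h3 x hx))
  obtain ⟨X, -, -, h1, n, hn, h2⟩ := main d
  rw [hd, le_bot_iff] at h1
  exact ⟨n, hn, fun x hx => by simpa [h1] using h2 x hx⟩

theorem one (hs : Group.IsSolvable N) {D Y W : Subgroup N} [Y.Normal] [W.Normal] (hY : Y ≤ D)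
    {M : ℕ} (hM : 0 < M) (h : ∀ a ∈ Y, ∀ g ∈ D, ⁅a ^ M, g⁆ ∈ W) :
    ∃ n, 0 < n ∧ ∀ x ∈ ⁅Y, D⁆, x ^ n ∈ W := by
  obtain ⟨n, hn, h1⟩ := schur hs hM fun a ha g hg => h a ha g (hY hg)
  refine ⟨M * n, by positivity, fun x hx => ?_⟩
  rw [pow_mul]
  exact pow_sup h1 (key
    ((Subgroup.commutator_mono (Subgroup.commutator_le_left _ _) le_rfl).trans le_sup_left)
    (fun a ha g hg => Subgroup.mem_sup_right (h a ha g hg)) hx)

theorem itc_mono {X X' : Subgroup N} (h : X ≤ X') (D : Subgroup N) (n : ℕ) :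
    itc X D n ≤ itc X' D n := by
  induction n with
  | zero => exact h
  | succ n ih => exact Subgroup.commutator_mono ih le_rfl

theorem itc_succ (X D : Subgroup N) (n : ℕ) : itc ⁅X, D⁆ D n = itc X D (n + 1) := by
  induction n with
  | zero => rfl
  | succ n ih => exact congrArg (⁅·, D⁆) ih

end ShA

open ShA in
/-- the lemma of Schur and Hall type for soluble groups -/
theorem sh (N : Type) [Group N] (hs : Group.IsSolvable N) (D Y W : Subgroup N) [D.Normal]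
    [Y.Normal] [W.Normal] (hY : Y ≤ D) (M v : ℕ) (hM : 0 < M) (h : itc (pw Y M) D v ≤ W) :
    ∃ n, 0 < n ∧ ∀ x ∈ itc Y D v, x ^ n ∈ W := by
  induction v generalizing Y M with
  | zero => exact ⟨M, hM, fun x hx => h (Subgroup.subset_closure ⟨x, hx, rfl⟩)⟩
  | succ v ih =>
    have := pw_normal Y M
    obtain ⟨n, hn, h1⟩ := one hs (W := ⁅pw Y M, D⁆) hY hM fun a ha g hg =>
      Subgroup.commutator_mem_commutator (Subgroup.subset_closure ⟨a, ha, rfl⟩) hg
    rw [← itc_succ] at h ⊢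
    refine ih ⁅Y, D⁆ (Subgroup.commutator_le_right Y D) n hn ((itc_mono ?_ D v).trans h)
    refine (Subgroup.closure_le _).2 ?_
    rintro _ ⟨x, hx, rfl⟩
    exact h1 x hx

end Pool.Agent.MP_5c28a4_al.H89S
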