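import Pool.Agent.MP_5c28a4_al.H13S.Base

set_option autoImplicit false

namespace Pool.Agent.MP_5c28a4_al.H89S.StrA

open scoped commutatorElement

namespace TowA

variable {N A : Type} [Group N] [AddCommGroup A] {u : ℕ → FF →₀ ℤ} {ρ : Representation ℤ N A}

/-- the conclusion -/
def C2 (ρ : Representation ℤ N A) (P : Subgroup N) : Prop :=
  ∃ (m : ℤ) (D : Subgroup N), m ≠ 0 ∧ D.Normal ∧ D.FiniteIndex ∧ ⁅P, D⁆ ≤ kr ρ m

/-- the standing assumptions -/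
structure Ctx (u : ℕ → FF →₀ ℤ) (ρ : Representation ℤ N A) : Prop where
  fg : Group.FG N
  sol : Group.IsSolvable N
  sat : ∀ p : ℕ, p.Prime → Sat (u p) ρ

theorem redc (hR : XRed) (c : Ctx u ρ) (Y P : Subgroup N) [Y.Normal] {m : ℤ} (hm : m ≠ 0)
    (hY : Y ≤ kr ρ m) (H : ∀ (A' : Type) [AddCommGroup A'] (ρ' : Representation ℤ (N ⧸ Y) A'),
      Ctx u ρ' → C2 ρ' (P.map (QuotientGroup.mk' Y))) : C2 ρ P := by
  obtain ⟨A', _, ρ', h1, -, h2⟩ := hR N A ρ Y m 1 (kill_one_iff.2 hY)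
  have hs := QuotientGroup.mk'_surjective Y
  have := c.fg
  have := c.sol
  obtain ⟨a, D, ha, hD, hD', h3⟩ := H A' ρ' ⟨Group.fg_of_surjective hs, inferInstance,
    fun p hp => h1 _ (c.sat p hp)⟩
  refine ⟨m * a ^ 1, D.comap (QuotientGroup.mk' Y), mul_ne_zero hm (pow_ne_zero _ ha),
    inferInstance, fi_comap _ hs hD', kill_one_iff.1 (h2 a _ 1 (kill_one_iff.2 ?_))⟩
  rintro _ ⟨x, hx, rfl⟩
  refine h3 ?_
  rw [← Subgroup.map_comap_eq_self_of_surjective hs D, ← Subgroup.map_commutator]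
  exact ⟨x, hx, rfl⟩

theorem cen (W P : Subgroup N) [W.Normal] [P.Normal] :
    ∃ C : Subgroup N, C.Normal ∧ ∀ x, x ∈ C ↔ ∀ y ∈ P, ⁅y, x⁆ ∈ W := by
  have := Subgroup.Normal.map ‹P.Normal› _ (QuotientGroup.mk'_surjective W)
  refine ⟨(Subgroup.centralizer (P.map (QuotientGroup.mk' W) : Set (N ⧸ W))).comap
    (QuotientGroup.mk' W), inferInstance, fun x => ?_⟩
  have h : ∀ y, ⁅y, x⁆ ∈ W ↔ QuotientGroup.mk' W y * QuotientGroup.mk' W x =
      QuotientGroup.mk' W x * QuotientGroup.mk' W y := fun y => by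
    rw [← commutatorElement_eq_one_iff_mul_comm, ← map_commutatorElement, ← MonoidHom.mem_ker,
      QuotientGroup.ker_mk']
  rw [Subgroup.mem_comap, Subgroup.mem_centralizer_iff]
  refine ⟨fun h1 y hy => (h y).2 (h1 _ ⟨y, hy, rfl⟩), ?_⟩
  rintro h1 _ ⟨y, hy, rfl⟩
  exact (h y).1 (h1 y hy)

theorem fin (hF : BFin) (hC : XCom) (c : Ctx u ρ) {P Q D D' : Subgroup N} [hP : P.Normal]
    [D.Normal] [D'.Normal] [D.FiniteIndex] [D'.FiniteIndex] (hb : Bdd P) {m : ℤ} (hm : m ≠ 0)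
    (h1 : ⁅P, D⁆ ≤ Q) (h2 : ⁅Q, D'⁆ ≤ kr ρ m) : C2 ρ P := by
  obtain ⟨e, he, hb⟩ := hb
  refine ⟨m, pw (D ⊓ D') e, hm, pw_normal inferInstance e,
    hF.pwFI N _ e c.sol c.fg inferInstance he,
    hC.fin N P (D ⊓ D') _ e hP inferInstance (kr_normal ρ m) ((Subgroup.commutator_mono
      ((Subgroup.commutator_mono le_rfl inf_le_left).trans h1) inf_le_right).trans h2)
      fun x hx => ?_⟩
  rw [hb x (Subgroup.commutator_le_left _ _ hx)]
  exact one_mem _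

theorem s2 (hF : BFin) (hT : ST3) (hR : XRed) (hS : XSum) (hC : XCom) (hU : XU2)
    (hu : ∀ p : ℕ, p.Prime → Good p (u p)) (c : Ctx u ρ) {B P D : Subgroup N} [P.Normal]
    [D.Normal] [hD : D.FiniteIndex] (hb : Bdd P) {q : ℕ} (hq : q.Prime) (hBP : B ≤ P)
    (h1 : ⁅B, D⁆ = ⊥) (h2 : ⁅P, P⁆ ≤ B) (h3 : ∀ x ∈ P, x ^ q ∈ B) : C2 ρ (P ⊓ D) := by
  obtain ⟨m, n, L, hm, hL, h4⟩ := hT q (u q) hq (hu q hq)
  have hb0 : Bdd (P ⊓ D) := bdd_mono inf_le_left hb
  obtain ⟨e, he, hb⟩ := hb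
  have hcm := cm_iff.2 h1
  have := kr_normal ρ (m * (e : ℤ) ^ n)
  obtain ⟨C, _, hC1⟩ := cen (kr ρ (m * (e : ℤ) ^ n)) (P ⊓ D)
  obtain ⟨C', _, hC2⟩ := cen C (P ⊓ D)
  have h5 : pw D L ≤ C' := pw_le_of fun z hz => (hC2 _).2 fun x hx => by
    rw [← commutatorElement_inv]
    refine inv_mem ((hC1 _).2 fun y hy => hS.ord N A ρ _ e n m (hb _ ?_) (kill_mono
      (h4 N A ρ (c.sat q hq) (P ⊓ D) (B ⊓ D) z (inf_le_inf_right D hBP)
        (fun b hb x hx => hcm b hb.1 x hx.2)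
        (le_inf ((Subgroup.commutator_mono inf_le_left inf_le_left).trans h2)
          ((Subgroup.commutator_le_left _ _).trans inf_le_right))
        (fun x hx => ⟨h3 x hx.1, D.pow_mem hx.2 q⟩) (nz_of_normal inferInstance z)
        (fun b hb => (hcm b hb.1 z hz).symm) y hy) ?_))
    · exact Subgroup.commutator_le_left P ⊤ (Subgroup.commutator_mem_commutator hy.1 trivial)
    · rintro _ rfl
      exact ⟨x, hx, rfl⟩
  have := pw_normal (H := D) inferInstance L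
  have hfi := hF.pwFI N D L c.sol c.fg hD hL
  have h6 : ⁅P ⊓ D, ⁅P ⊓ D, pw D L⁆⁆ ≤ kr ρ (m * (e : ℤ) ^ n) :=
    Subgroup.commutator_le.2 fun y hy x hx => (hC1 x).1
      (Subgroup.commutator_le.2 (fun a ha g hg => (hC2 g).1 (h5 hg) a ha) hx) y hy
  refine redc hR c _ _ (mul_ne_zero (by rintro rfl; exact hm (dvd_zero _)) (by positivity)) h6
    fun A' _ ρ' c' => ?_
  have hs := QuotientGroup.mk'_surjective ⁅P ⊓ D, ⁅P ⊓ D, pw D L⁆⁆
  have := Subgroup.Normal.map (H := P ⊓ D) inferInstance _ hs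
  have := Subgroup.Normal.map (H := pw D L) inferInstance _ hs
  have := fi_map _ hs hfi
  obtain ⟨m', D', hm', _, _, h7⟩ := hU u hu _ A' ρ' ⁅(P ⊓ D).map _, (pw D L).map _⁆ c'.fg c'.sol
    c'.sat inferInstance (bdd_mono (Subgroup.commutator_le_left _ _) (bdd_map _ hb0))
    (cm_iff.2 (by
      rw [← Subgroup.map_commutator, ← Subgroup.map_commutator, map_mk_eq_bot]
      exact Subgroup.commutator_mono (Subgroup.commutator_le_left _ _) le_rfl))
  exact fin hF hC c' (bdd_map _ hb0) hm' le_rfl (kill_one_iff.1 h7)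

theorem step (hF : BFin) (hT : ST3) (hR : XRed) (hS : XSum) (hC : XCom) (hU : XU2)
    (hu : ∀ p : ℕ, p.Prime → Good p (u p)) (c : Ctx u ρ) {B P : Subgroup N} [B.Normal] [P.Normal]
    (hb : Bdd P) {q : ℕ} (hq : q.Prime) (hBP : B ≤ P) (h2 : ⁅P, P⁆ ≤ B) (h3 : ∀ x ∈ P, x ^ q ∈ B)
    (H : C2 ρ B) : C2 ρ P := by
  obtain ⟨m, D, hm, _, hD, h1⟩ := H
  refine redc hR c _ _ hm h1 fun A' _ ρ' c' => ?_
  have hs := QuotientGroup.mk'_surjective ⁅B, D⁆
  have := Subgroup.Normal.map (H := P) inferInstance _ hs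
  have := Subgroup.Normal.map (H := D) inferInstance _ hs
  have := fi_map _ hs hD
  obtain ⟨m', D', hm', _, _, h4⟩ := s2 hF hT hR hS hC hU hu c' (B := B.map _) (P := P.map _)
    (D := D.map _) (bdd_map _ hb) hq (Subgroup.map_mono hBP)
    (by rw [← Subgroup.map_commutator, map_mk_eq_bot])
    (by rw [← Subgroup.map_commutator]; exact Subgroup.map_mono h2)
    (by rintro _ ⟨x, hx, rfl⟩; exact ⟨_, h3 x hx, map_pow _ _ _⟩)
  exact fin hF hC c' (bdd_map _ hb) hm' (Subgroup.commutator_le_inf _ _) h4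

end TowA

open TowA in
theorem tow (hF : BFin) (hT : ST3) (hR : XRed) (hS : XSum) (hC : XCom) (hU : XU2) : XTow := by
  intro u hu N A _ _ ρ X hfg hsol hsat hX hb
  obtain ⟨h, q, L, ht, rfl⟩ := hF.tower N X hsol hX hb
  have hle : ∀ a, L a ≤ L 0 := fun a => antitone_nat_of_succ_le ht.anti (Nat.zero_le a)
  have key : ∀ t a, a + t = h → C2 ρ (L a) := by
    intro t
    induction t with
    | zero =>
      intro a ha
      obtain rfl : a = h := ha
      exact ⟨1, ⊤, one_ne_zero, inferInstance, inferInstance, by simp [ht.bot]⟩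
    | succ t ih =>
      intro a ha
      have := ht.normal a
      have := ht.normal (a + 1)
      exact step hF hT hR hS hC hU hu ⟨hfg, hsol, hsat⟩ (bdd_mono (hle a) hb) (ht.prime a)
        (ht.anti a) (ht.comm a) (ht.pow a) (ih (a + 1) (by omega))
  obtain ⟨m, D, hm, h1, h2, h3⟩ := key h 0 (Nat.zero_add h)
  exact ⟨m, D, hm, h1, h2, kill_one_iff.2 h3⟩

end Pool.Agent.MP_5c28a4_al.H89S.StrA
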