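import Pool.Agent.MP_5c28a4_al.H89S.Spec8

set_option autoImplicit false

namespace Pool.Agent.MP_5c28a4_al.H89S

open scoped commutatorElement

variable {G I : Type} [Group G]

/-- two tuples that agree modulo a normal subgroup give the same values modulo it -/
theorem lift_mod (Y : Subgroup G) [Y.Normal] {u : I → G} (hu : All Y u) (g : I → G)
    (f : FreeGroup I) : FreeGroup.lift (u * g) f * (FreeGroup.lift g f)⁻¹ ∈ Y := by
  have e : (QuotientGroup.mk' Y).comp (FreeGroup.lift (u * g)) =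
      (QuotientGroup.mk' Y).comp (FreeGroup.lift g) := by
    refine FreeGroup.ext_hom _ _ fun i => ?_
    simp only [MonoidHom.comp_apply, FreeGroup.lift_apply_of, Pi.mul_apply, map_mul]
    rw [show QuotientGroup.mk' Y (u i) = 1 from (QuotientGroup.eq_one_iff _).2 (hu i), one_mul]
  have := DFunLike.congr_fun e f
  simp only [MonoidHom.comp_apply] at this
  rw [← QuotientGroup.ker_mk' Y, MonoidHom.mem_ker, map_mul, map_inv, this, mul_inv_cancel]

theorem comap_lift_mod (Y K : Subgroup G) [Y.Normal] (hYK : Y ≤ K) {u : I → G} (hu : All Y u)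
    (g : I → G) : K.comap (FreeGroup.lift (u * g)) = K.comap (FreeGroup.lift g) := by
  ext f
  have h := hYK (lift_mod Y hu g f)
  simp only [Subgroup.mem_comap]
  constructor
  · intro h1
    have := K.mul_mem (K.inv_mem h) h1
    simpa [mul_assoc] using this
  · intro h1
    have := K.mul_mem h h1
    simpa [mul_assoc] using this

theorem win_mono [DecidableEq I] (g : I → G) {ℓ ℓ' : ℕ} (h : ℓ ≤ ℓ') (T : Set G) :
    win g ℓ T ≤ win g ℓ' T :=
  Subgroup.closure_mono fun _ ⟨f, hf, hx⟩ => ⟨f, hf.trans h, hx⟩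

theorem win_conj [DecidableEq I] (g : I → G) (ℓ : ℕ) (T : Set G) (f : FreeGroup I) {x : G}
    (hx : x ∈ win g ℓ T) :
    FreeGroup.lift g f * x * (FreeGroup.lift g f)⁻¹ ∈ win g (f.norm + ℓ) T := by
  induction hx using Subgroup.closure_induction with
  | mem x hx =>
    obtain ⟨f', hf', t, ht, rfl⟩ := hx
    refine Subgroup.subset_closure ⟨f * f', (FreeGroup.norm_mul_le f f').trans (by omega), t, ht, ?_⟩
    simp [mul_assoc]
  | one => simpa using one_mem _
  | mul x y _ _ hx hy => simpa [mul_assoc] using mul_mem hx hy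
  | inv x _ hx => simpa [mul_assoc] using inv_mem hx

theorem win_mem_mk [DecidableEq I] (b g : I → G) (l : List (I × Bool)) :
    FreeGroup.lift (b * g) (FreeGroup.mk l) * (FreeGroup.lift g (FreeGroup.mk l))⁻¹ ∈
      win g l.length (Set.range b) := by
  induction l with
  | nil => simpa [← FreeGroup.one_eq_mk] using one_mem _
  | cons x l ih =>
    obtain ⟨i, s⟩ := x
    have e : FreeGroup.mk ((i, s) :: l) = FreeGroup.mk [(i, s)] * FreeGroup.mk l := by
      rw [FreeGroup.mul_mk]; rfl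
    have hn : (FreeGroup.mk [(i, s)]).norm ≤ 1 := FreeGroup.norm_mk_le
    have h1 := win_mono g (show (FreeGroup.mk [(i, s)]).norm + l.length ≤ l.length + 1 by omega)
      _ (win_conj g _ _ (FreeGroup.mk [(i, s)]) ih)
    have h2 : FreeGroup.lift (b * g) (FreeGroup.mk [(i, s)]) *
        (FreeGroup.lift g (FreeGroup.mk [(i, s)]))⁻¹ ∈ win g (l.length + 1) (Set.range b) := by
      cases s with
      | true =>
        refine Subgroup.subset_closure ⟨1, by simp, b i, ⟨i, rfl⟩, ?_⟩
        simp [FreeGroup.lift_mk]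
      | false =>
        refine (Subgroup.inv_mem_iff _).1
          (Subgroup.subset_closure ⟨FreeGroup.mk [(i, false)], by omega, b i, ⟨i, rfl⟩, ?_⟩)
        simp [FreeGroup.lift_mk, mul_assoc]
    rw [e, (FreeGroup.lift (b * g)).map_mul, (FreeGroup.lift g).map_mul, List.length_cons]
    have h3 := mul_mem h2 h1
    generalize FreeGroup.lift (b * g) (FreeGroup.mk [(i, s)]) = A at h3 ⊢
    generalize FreeGroup.lift (b * g) (FreeGroup.mk l) = B at h3 ⊢
    generalize FreeGroup.lift g (FreeGroup.mk [(i, s)]) = C at h3 ⊢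
    generalize FreeGroup.lift g (FreeGroup.mk l) = D at h3 ⊢
    convert h3 using 1
    group

/-- the change of the value of a word lies in the window group -/
theorem win_mem [DecidableEq I] (b g : I → G) (f : FreeGroup I) :
    FreeGroup.lift (b * g) f * (FreeGroup.lift g f)⁻¹ ∈ win g f.norm (Set.range b) := by
  have := win_mem_mk b g f.toWord
  rwa [FreeGroup.mk_toWord] at this

theorem finite_norm_le [Finite I] [DecidableEq I] (ℓ : ℕ) :
    {f : FreeGroup I | f.norm ≤ ℓ}.Finite := by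
  have h : {l : List (I × Bool) | l.length ≤ ℓ}.Finite := List.finite_length_le _ ℓ
  refine (h.image FreeGroup.mk).subset fun f hf => ⟨f.toWord, hf, FreeGroup.mk_toWord⟩

theorem InV.of_inj {S : Set FF} {G' : Type} [Group G'] (h : InV S G) (ι : G' →* G)
    (hι : Function.Injective ι) : InV S G' := fun w hw f =>
  hι (by rw [map_one]; exact h w hw (ι.comp f))

theorem exists_lift {G' α : Type} [Group G'] (π : G →* G') (hπ : Function.Surjective π)
    (f : FreeGroup α →* G') : ∃ f' : FreeGroup α →* G, π.comp f' = f := by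
  choose s hs using hπ
  exact ⟨FreeGroup.lift fun i => s (f (.of i)), FreeGroup.ext_hom _ _ fun i => by simp [hs]⟩

theorem InV.of_surj {S : Set FF} {G' : Type} [Group G'] (h : InV S G) (π : G →* G')
    (hπ : Function.Surjective π) : InV S G' := fun w hw f => by
  obtain ⟨f', rfl⟩ := exists_lift π hπ f
  rw [MonoidHom.comp_apply, h w hw f', map_one]

theorem lcs_succ_normal_in (X : Subgroup G) (j : ℕ) {x y : G} (hx : x ∈ X)
    (hy : y ∈ X.lowerCentralSeries j) : x * y * x⁻¹ ∈ X.lowerCentralSeries j :=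
  ((Subgroup.mem_normalizer_iff.1 (X.self_le_normalizer_lowerCentralSeries j hx)) y).1 hy

theorem lcs_le (X : Subgroup G) (j : ℕ) : X.lowerCentralSeries j ≤ X :=
  X.lowerCentralSeries_antitone (Nat.zero_le j)

/-- powers of products in a factor of the lower central series -/
theorem pow_mul_mod (X : Subgroup G) (j d : ℕ) {x y : G} (hx : x ∈ X.lowerCentralSeries j)
    (hy : y ∈ X.lowerCentralSeries j) :
    ∃ z ∈ X.lowerCentralSeries (j + 1), (x * y) ^ d = x ^ d * y ^ d * z := by
  induction d with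
  | zero => exact ⟨1, one_mem _, by simp⟩
  | succ d ih =>
    obtain ⟨z, hz, e⟩ := ih
    have h1 : ⁅(y ^ d)⁻¹, x⁻¹⁆ ∈ X.lowerCentralSeries (j + 1) :=
      Subgroup.commutator_mem_commutator (inv_mem (pow_mem hy d)) (inv_mem (lcs_le X j hx))
    have h2 := lcs_succ_normal_in X (j + 1) (inv_mem (lcs_le X j hy)) h1
    have h3 := lcs_succ_normal_in X (j + 1) (inv_mem (lcs_le X j (mul_mem hx hy))) hz
    refine ⟨_, mul_mem h2 h3, ?_⟩
    rw [pow_succ, e, pow_succ, pow_succ, commutatorElement_def]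
    group

theorem mu_le (X : Subgroup G) (j d : ℕ) : mu X j d ≤ X.lowerCentralSeries j :=
  sup_le ((Subgroup.closure_le _).2 fun _ ⟨_, hy, e⟩ => e ▸ pow_mem hy d)
    (X.lowerCentralSeries_antitone (Nat.le_succ j))

theorem pow_mem_mu (X : Subgroup G) (j d : ℕ) {x : G} (hx : x ∈ X.lowerCentralSeries j) :
    x ^ d ∈ mu X j d :=
  Subgroup.mem_sup_left (Subgroup.subset_closure ⟨x, hx, rfl⟩)

theorem pw_mono {X X' : Subgroup G} (h : X ≤ X') (d : ℕ) : pw X d ≤ pw X' d :=
  Subgroup.closure_mono fun _ ⟨y, hy, e⟩ => ⟨y, h hy, e⟩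

theorem mu_mono {X X' : Subgroup G} (h : X ≤ X') (j d : ℕ) : mu X j d ≤ mu X' j d :=
  sup_le_sup (pw_mono (Subgroup.lowerCentralSeries_mono j h) d)
    (Subgroup.lowerCentralSeries_mono (j + 1) h)

theorem mu_dvd (X : Subgroup G) (j : ℕ) {d d' : ℕ} (h : d ∣ d') : mu X j d' ≤ mu X j d := by
  obtain ⟨t, rfl⟩ := h
  refine sup_le_sup_right ((Subgroup.closure_le _).2 ?_) _
  rintro _ ⟨y, hy, rfl⟩
  rw [pow_mul]
  have h1 : y ^ d ∈ pw (X.lowerCentralSeries j) d := Subgroup.subset_closure ⟨y, hy, rfl⟩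
  exact pow_mem h1 t

theorem pw_map {G' : Type} [Group G'] (f : G →* G') (X : Subgroup G) (d : ℕ) :
    (pw X d).map f = pw (X.map f) d := by
  unfold pw
  rw [MonoidHom.map_closure]
  congr 1
  ext x
  constructor
  · rintro ⟨_, ⟨y, hy, rfl⟩, rfl⟩
    exact ⟨f y, ⟨y, hy, rfl⟩, map_pow f y d⟩
  · rintro ⟨_, ⟨y, hy, rfl⟩, rfl⟩
    exact ⟨y ^ d, ⟨y, hy, rfl⟩, map_pow f y d⟩

theorem mu_map {G' : Type} [Group G'] (f : G →* G') (X : Subgroup G) (j d : ℕ) :
    (mu X j d).map f = mu (X.map f) j d := by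
  unfold mu
  rw [Subgroup.map_sup, pw_map, Subgroup.map_lowerCentralSeries, Subgroup.map_lowerCentralSeries]

theorem pw_normal (X : Subgroup G) [h : X.Normal] (d : ℕ) : (pw X d).Normal := by
  refine ⟨fun x hx g => ?_⟩
  induction hx using Subgroup.closure_induction with
  | mem x hx =>
    obtain ⟨y, hy, rfl⟩ := hx
    exact Subgroup.subset_closure ⟨g * y * g⁻¹, h.conj_mem y hy g, by simp [conj_pow]⟩
  | one => simpa using one_mem _
  | mul x y _ _ hx hy => simpa [mul_assoc] using mul_mem hx hy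
  | inv x _ hx => simpa [mul_assoc] using inv_mem hx

instance mu_normal (X : Subgroup G) [X.Normal] (j d : ℕ) : (mu X j d).Normal := by
  have := pw_normal (X.lowerCentralSeries j) d
  unfold mu
  infer_instance

theorem mem_cz {Y : Subgroup G} [Y.Normal] {M : Subgroup G} {S : Set G} {m : G} :
    m ∈ cz Y M S ↔ m ∈ M ∧ ∀ x ∈ S, ⁅x, m⁆ ∈ Y := by
  unfold cz
  rw [Subgroup.mem_inf, Subgroup.mem_comap, Subgroup.mem_centralizer_iff]
  refine and_congr_right fun _ => ⟨fun h x hx => ?_, ?_⟩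
  · have := h _ ⟨x, hx, rfl⟩
    rw [← QuotientGroup.ker_mk' Y, MonoidHom.mem_ker, map_commutatorElement,
      commutatorElement_eq_one_iff_mul_comm]
    exact this
  · rintro h _ ⟨x, hx, rfl⟩
    have := h x hx
    rw [← QuotientGroup.ker_mk' Y, MonoidHom.mem_ker, map_commutatorElement,
      commutatorElement_eq_one_iff_mul_comm] at this
    exact this

theorem Tower.le {h : ℕ} {q : ℕ → ℕ} {L : ℕ → Subgroup G} (t : Tower h q L) {a b : ℕ}
    (hab : a ≤ b) : L b ≤ L a :=
  antitone_nat_of_succ_le t.anti hab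

theorem AddOn.one {A : Type} [AddCommGroup A] {X : Subgroup G} {ζ : G → A} (h : AddOn X ζ) :
    ζ 1 = 0 := by
  have := h 1 X.one_mem 1 X.one_mem
  rw [one_mul] at this
  exact left_eq_add.1 this

theorem mem_of_coprime {Y : Subgroup G} {x : G} {a b : ℕ} (hab : a.Coprime b) (ha : x ^ a ∈ Y)
    (hb : x ^ b ∈ Y) : x ∈ Y := by
  have e := Nat.gcd_eq_gcd_ab a b
  rw [hab.gcd_eq_one] at e
  have : x = (x ^ a) ^ (Nat.gcdA a b) * (x ^ b) ^ (Nat.gcdB a b) := by
    rw [← zpow_natCast, ← zpow_natCast, ← zpow_mul, ← zpow_mul, ← zpow_add, ← e]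
    simp
  rw [this]
  exact mul_mem (zpow_mem ha _) (zpow_mem hb _)

end Pool.Agent.MP_5c28a4_al.H89S
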