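import Pool.Agent.MP_5c28a4_al.H89.VDefs
import Pool.Agent.MP_5c28a4_al.H89.VSol

/-!
Common notions for the soluble case (plan file `MP_5c28a4_H89_A_plan.md` in the team store).
Conventions: left actions, left modules, conjugation `g * x * g⁻¹`,
`X.lowerCentralSeries j` is the term of weight `j + 1`.
-/

set_option autoImplicit false

namespace Pool.Agent.MP_5c28a4_al.H89S

open scoped commutatorElement TensorProduct

/-- words -/
abbrev FF : Type := FreeGroup ℕ

/-- `G` satisfies all words of `S` -/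
def InV (S : Set FF) (G : Type) [Group G] : Prop := ∀ w ∈ S, ∀ f : FF →* G, f w = 1

/-- the variety defined by `S` -/
def vr (S : Set FF) : Set GrpCat.{0} := {G | ∀ w ∈ S, H89.Sat G w}

/-- the variety is generated by its finite groups -/
def GenFin (S : Set FF) : Prop := ∀ (w : FF) (G : Type) [Group G], InV S G →
  ∀ f : FF →* G, f w ≠ 1 →
    ∃ (H : Type) (_ : Group H), Finite H ∧ InV S H ∧ ∃ f' : FF →* H, f' w ≠ 1

section Grp

variable {G : Type} [Group G]

/-- the subgroup generated by the `n`-th powers -/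
def pw (H : Subgroup G) (n : ℕ) : Subgroup G := Subgroup.closure {x | ∃ y ∈ H, x = y ^ n}

/-- iterated commutator `[X, D, ..., D]` -/
def itc (X D : Subgroup G) : ℕ → Subgroup G
  | 0 => X
  | n + 1 => ⁅itc X D n, D⁆

/-- iterated power subgroups -/
def Del (G : Type) [Group G] (L : ℕ) : ℕ → Subgroup G
  | 0 => ⊤
  | j + 1 => pw (Del G L j) L

/-- bounded exponent -/
def Bdd (X : Subgroup G) : Prop := ∃ n : ℕ, 0 < n ∧ ∀ x ∈ X, x ^ n = 1

/-- `K` is normal and `G / K` is virtually nilpotent -/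
def CoVN (K : Subgroup G) : Prop := K.Normal ∧ ∃ (H : Subgroup G) (d : ℕ),
  H.Normal ∧ H.FiniteIndex ∧ H.lowerCentralSeries d ≤ K

/-- virtually nilpotent -/
def VN (G : Type) [Group G] : Prop := CoVN (⊥ : Subgroup G)

/-- locally finite -/
def LocFin (X : Subgroup G) : Prop :=
  ∀ T : Finset G, (∀ t ∈ T, t ∈ X) → Finite (Subgroup.closure (↑T : Set G))

/-- `X` is an `r`-group modulo `Y` -/
def PMod (r : ℕ) (Y X : Subgroup G) : Prop := ∀ x ∈ X, ∃ e : ℕ, x ^ r ^ e ∈ Y

/-- the finite subgroups of `X` of prime power order have class at most `c` -/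
def STc (X : Subgroup G) (c : ℕ) : Prop := ∀ p : ℕ, p.Prime → ∀ P : Subgroup G, P ≤ X →
  Finite P → IsPGroup p P → P.lowerCentralSeries c = ⊥

/-- refined lower central series -/
def mu (X : Subgroup G) (j d : ℕ) : Subgroup G :=
  pw (X.lowerCentralSeries j) d ⊔ X.lowerCentralSeries (j + 1)

/-- `z` normalises `P` -/
def Nz (z : G) (P : Subgroup G) : Prop := ∀ x ∈ P, z * x * z⁻¹ ∈ P ∧ z⁻¹ * x * z ∈ P

/-- the elements of `B` commute with the elements of `P` -/
def Cm (B P : Subgroup G) : Prop := ∀ b ∈ B, ∀ x ∈ P, b * x = x * b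

/-- left normed commutator of weight `m + 1` -/
def lc : (m : ℕ) → (Fin (m + 1) → G) → G
  | 0, x => x 0
  | m + 1, x => ⁅lc m (Fin.init x), x (Fin.last (m + 1))⁆

/-- the elements of `M` that centralise `S` modulo `Y` -/
def cz (Y : Subgroup G) [Y.Normal] (M : Subgroup G) (S : Set G) : Subgroup G :=
  M ⊓ (Subgroup.centralizer (QuotientGroup.mk' Y '' S)).comap (QuotientGroup.mk' Y)

/-- `ζ` is additive on `X` -/
def AddOn {A : Type} [AddCommGroup A] (X : Subgroup G) (ζ : G → A) : Prop :=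
  ∀ x ∈ X, ∀ y ∈ X, ζ (x * y) = ζ x + ζ y

/-- a series of normal subgroups with elementary abelian factors -/
structure Tower (h : ℕ) (q : ℕ → ℕ) (L : ℕ → Subgroup G) : Prop where
  normal : ∀ a, (L a).Normal
  anti : ∀ a, L (a + 1) ≤ L a
  bot : L h = ⊥
  prime : ∀ a, (q a).Prime
  comm : ∀ a, ⁅L a, L a⁆ ≤ L (a + 1)
  pow : ∀ a, ∀ x ∈ L a, x ^ q a ∈ L (a + 1)

variable {I : Type}

/-- all entries lie in `X` -/
def All (X : Subgroup G) (u : I → G) : Prop := ∀ i, u i ∈ X

/-- `w` is not trivial at some tuple of the coset `Y g` -/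
def Phi (w : FreeGroup I) (Y : Subgroup G) (g : I → G) : Prop :=
  ∃ u : I → G, All Y u ∧ FreeGroup.lift (u * g) w ≠ 1

/-- the subgroup generated by the conjugates of `T` by words of length at most `ℓ` in `g` -/
def win [DecidableEq I] (g : I → G) (ℓ : ℕ) (T : Set G) : Subgroup G := Subgroup.closure
  {x | ∃ f : FreeGroup I, f.norm ≤ ℓ ∧ ∃ t ∈ T,
    x = FreeGroup.lift g f * t * (FreeGroup.lift g f)⁻¹}

/-- every list of length at least `N` of elements of `D` has a non-empty sublist whose product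
lies in `E` -/
def Cube {α : Type} [Monoid α] (N : ℕ) (D E : Set α) : Prop := ∀ l : List α, N ≤ l.length →
  (∀ b ∈ l, b ∈ D) → ∃ J : List α, J.Sublist l ∧ J ≠ [] ∧ J.prod ∈ E

end Grp

section Rep

variable {N A : Type} [Group N] [AddCommGroup A]

/-- `u` is an identity of the representation -/
def Sat (u : FF →₀ ℤ) (ρ : Representation ℤ N A) : Prop :=
  ∀ φ : FF →* N, (u.sum fun w c => c • ρ (φ w)) = 0

/-- `m (y₁ - 1) ⋯ (yₙ - 1)` acts as zero for all `yᵢ` in `S` -/
def Kill (ρ : Representation ℤ N A) (m : ℤ) (S : Set N) (n : ℕ) : Prop :=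
  ∀ l : List N, l.length = n → (∀ y ∈ l, y ∈ S) → m • (l.map fun y => ρ y - 1).prod = 0

/-- the representation is an abelian normal section with the action by conjugation -/
def Sec (ρ : Representation ℤ N A) : Prop := ∃ (H : Subgroup N) (f : N → A), H.Normal ∧
  AddOn H f ∧ (∀ a, ∃ x ∈ H, f x = a) ∧ ∀ g, ∀ x ∈ H, f (g * x * g⁻¹) = ρ g (f x)

/-- `u` is not zero in the group algebra over `ℤ / p` of a split group of `A_p A` -/
def Good (p : ℕ) (u : FF →₀ ℤ) : Prop := ∃ (T : Type) (_ : Group T) (B C : Subgroup T),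
  B.Normal ∧ Cm B B ∧ (∀ x ∈ B, x ^ p = 1) ∧ Cm C C ∧ B ⊔ C = ⊤ ∧
    ∃ (φ : FF →* T) (t : T), ¬ (p : ℤ) ∣ Finsupp.mapDomain φ u t

/-- all abelian normal sections satisfy the identities `u p` -/
def Adm (u : ℕ → FF →₀ ℤ) (G : Type) [Group G] : Prop := ∀ p : ℕ, p.Prime →
  ∀ (A : Type) [AddCommGroup A] (ρ : Representation ℤ G A), Sec ρ → Sat (u p) ρ

/-- evaluation at the conjugates of `y` by the powers of `z` -/
def evz (y z : N) : FreeGroup ℤ →* N := FreeGroup.lift fun a : ℤ => z ^ a * y * (z ^ a)⁻¹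

/-- exponent vector of a word -/
noncomputable def ab (w : FreeGroup ℤ) : ℤ →₀ ℤ :=
  (FreeGroup.lift (fun a : ℤ => Multiplicative.ofAdd (Finsupp.single a (1 : ℤ))) w).toAdd

end Rep

section Ult

/-- ultrapower -/
abbrev Ult (G : Type) : Type := Filter.Germ (Filter.hyperfilter ℕ : Filter ℕ) G

variable {G : Type} [Group G]

/-- the ultrapower of a subgroup -/
def star (H : Subgroup G) : Subgroup (Ult G) where
  carrier := {x | x.LiftPred (· ∈ H)}
  one_mem' := Filter.Germ.liftPred_const H.one_mem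
  mul_mem' := by
    intro a b
    induction a using Filter.Germ.inductionOn
    induction b using Filter.Germ.inductionOn
    intro ha hb
    have ha' := Filter.Germ.liftPred_coe.1 ha
    have hb' := Filter.Germ.liftPred_coe.1 hb
    exact Filter.Germ.liftPred_coe.2 ((ha'.and hb').mono fun n h => H.mul_mem h.1 h.2)
  inv_mem' := by
    intro a
    induction a using Filter.Germ.inductionOn
    intro ha
    exact Filter.Germ.liftPred_coe.2 ((Filter.Germ.liftPred_coe.1 ha).mono fun n h => H.inv_mem h)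

/-- the class of a sequence -/
noncomputable def germ {α : Type} (x : ℕ → α) : Ult α := (x : Filter.Germ _ α)

/-- the diagonal embedding -/
noncomputable def cst (G : Type) [Group G] : G →* Ult G where
  toFun x := germ fun _ => x
  map_one' := rfl
  map_mul' _ _ := rfl

/-- the ultrapower of a representation, on elements -/
def IsUltRep {A : Type} [AddCommGroup A] (ρ : Representation ℤ G A)
    (σ : Representation ℤ (Ult G) (Ult A)) : Prop :=
  ∀ (x : ℕ → G) (a : ℕ → A), σ (germ x) (germ a) = germ fun n => ρ (x n) (a n)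

end Ult

section Rel

variable {Γ I : Type} [Group Γ] [Fintype I]

/-- integral group ring -/
abbrev QQ (Γ : Type) [Group Γ] : Type := MonoidAlgebra ℤ Γ

/-- the boundary map of a presentation, `e i ↦ γ i - 1` -/
noncomputable def del (γ : I → Γ) : (I → QQ Γ) →ₗ[QQ Γ] QQ Γ :=
  Fintype.linearCombination (QQ Γ) fun i => MonoidAlgebra.of ℤ Γ (γ i) - 1

/-- the relation module -/
noncomputable def VV (γ : I → Γ) : Submodule (QQ Γ) (I → QQ Γ) := LinearMap.ker (del γ)

/-- the endomorphisms over the boundary map -/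
def Th (γ : I → Γ) : Submonoid (Module.End (QQ Γ) (I → QQ Γ)) where
  carrier := {θ | ∀ x, del γ (θ x) = del γ x}
  one_mem' := fun _ => rfl
  mul_mem' := fun {_ b} ha hb x => (ha (b x)).trans (hb x)

/-- restriction to the relation module -/
noncomputable def res {γ : I → Γ} (θ : Th γ) : VV γ →ₗ[QQ Γ] VV γ :=
  θ.1.restrict fun x hx => (θ.2 x).trans hx

/-- tensor power of the relation module -/
abbrev TT (γ : I → Γ) (m : ℕ) : Type := ⨂[ℤ] _ : Fin m, VV γ

/-- diagonal action on the tensor power -/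
noncomputable def act {γ : I → Γ} (θ : Th γ) (m : ℕ) : TT γ m →ₗ[ℤ] TT γ m :=
  PiTensorProduct.map fun _ => (res θ).restrictScalars ℤ

/-- invariant subgroup of a finite sum of tensor powers -/
def Inv {γ : I → Γ} {m : ℕ} {J : Type} (L : Submodule ℤ (J → TT γ m)) : Prop :=
  ∀ θ : Th γ, ∀ t ∈ L, (fun j => act θ m (t j)) ∈ L

/-- `n T + Σ_l (Δ - 1)^{(l)} T` -/
noncomputable def bb (γ : I → Γ) (m : ℕ) (Δ : Subgroup Γ) (n : ℕ) : Submodule ℤ (TT γ m) :=
  Submodule.span ℤ ({t | ∃ s, t = n • s} ∪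
    {t | ∃ (v : Fin m → VV γ) (l : Fin m), ∃ δ ∈ Δ, t = PiTensorProduct.tprod ℤ
      (Function.update v l ((MonoidAlgebra.of ℤ Γ δ - 1) • v l))})

end Rel

end Pool.Agent.MP_5c28a4_al.H89S
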