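import Pool.Agent.MP_5c28a4_al.H89S.Base8

set_option autoImplicit false

namespace Pool.Agent.MP_5c28a4_al.H89S

open scoped commutatorElement

namespace FinA

/-- all states with the given data have a finite witness -/
def BB (S : Set FF) {k : ℕ} (w : FreeGroup (Fin k)) (h : ℕ) (q : ℕ → ℕ) (c i e : ℕ)
    (𝒮 : Set (ℕ × ℕ × ℕ)) : Prop :=
  ∀ (G : Type) [Group G] (L : ℕ → Subgroup G) (g : Fin k → G), Dat S h q c i e 𝒮 L →
    Pt w g (L 0) → Wit S w

variable {S : Set FF} {k : ℕ} {w : FreeGroup (Fin k)} {h : ℕ} {q : ℕ → ℕ} {c i e : ℕ}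
  {𝒮 : Set (ℕ × ℕ × ℕ)}

theorem dat_mono {G : Type} [Group G] {L : ℕ → Subgroup G} {𝒯 : Set (ℕ × ℕ × ℕ)}
    (D : Dat S h q c i e 𝒮 L) (hT : 𝒯 ⊆ 𝒮) : Dat S h q c i e 𝒯 L :=
  ⟨D.inV, D.tow, D.st, D.nil, fun t ht => D.pis t (hT ht)⟩

theorem dat_insert {G : Type} [Group G] {L : ℕ → Subgroup G} (D : Dat S h q c i e 𝒮 L)
    {r j d : ℕ} (hr : r.Prime) (hp : PiC L i r j d) : Dat S h q c i e (insert (r, j, d) 𝒮) L :=
  ⟨D.inV, D.tow, D.st, D.nil, fun t ht => ht.elim (fun e => e ▸ ⟨hr, hp⟩) (D.pis t)⟩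

theorem round (h1 : SR1) (h2 : SR2) {r j s : ℕ} (hrq : r ≠ q i)
    (H : BB S w h q c i e (insert (r, j, r ^ s) 𝒮)) :
    BB S w h q c i e (insert (r, j, r ^ (s + 1)) 𝒮) := by
  intro G _ L g D hp
  obtain ⟨G₁, _, L₁, _, g₁, P, E, N, ζ, u, D₁, Pl⟩ :=
    h1 S h q c i e _ k w G L g r j s D hp hrq (Set.mem_insert _ _)
  obtain ⟨G₂, _, L₂, g₂, D₂, hp₂⟩ := h2 S h q c i e _ k w G₁ L₁ g₁ r j s P E N ζ u D₁
    (D.pis _ (Set.mem_insert _ _)).1 hrq Pl
  exact H G₂ L₂ g₂ (dat_mono D₂ (Set.insert_subset_insert (Set.subset_insert _ _))) hp₂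

theorem pow_mem_of {G : Type} [Group G] {Y : Subgroup G} [Y.Normal] {x : G} {r e n : ℕ}
    (hr : r.Prime) (hn : 0 < n) (h1 : x ^ r ^ e ∈ Y) (h2 : x ^ n = 1) : x ^ r ^ n ∈ Y := by
  rw [← QuotientGroup.ker_mk' Y, MonoidHom.mem_ker, map_pow] at h1 ⊢
  obtain ⟨t, -, ht⟩ := (Nat.dvd_prime_pow hr).1 (orderOf_dvd_of_pow_eq_one h1)
  have h3 : orderOf (QuotientGroup.mk' Y x) ∣ n :=
    orderOf_dvd_of_pow_eq_one (by rw [← map_pow, h2, map_one])
  rw [ht] at h3
  have h4 : t ≤ n := ((Nat.lt_pow_self hr.one_lt).le).trans (Nat.le_of_dvd hn h3)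
  exact orderOf_dvd_iff_pow_eq_one.1 (ht ▸ pow_dvd_pow r h4)

theorem next (hF : BFin) {r j : ℕ}
    (H : BB S w h q c i e (insert (r, j, r ^ ∏ a ∈ Finset.range h, q a) 𝒮)) :
    BB S w h q c i e (insert (r, j + 1, 1) 𝒮) := by
  intro G _ L g D hp
  obtain ⟨hr, hpi⟩ := D.pis _ (Set.mem_insert _ _)
  refine H G L g (dat_insert (dat_mono D (Set.subset_insert _ _)) hr fun X hX hpm => ?_) hp
  have := D.tow.normal i
  have := D.tow.normal (i + 1)
  have h1 : mu X j (r ^ ∏ a ∈ Finset.range h, q a) ≤ cz (L (i + 1)) ⊤ (L i) := by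
    refine sup_le ((Subgroup.closure_le _).2 ?_) fun x hx => mem_cz.2 ⟨trivial, fun y hy => ?_⟩
    · rintro _ ⟨x, hx, rfl⟩
      obtain ⟨e', he⟩ := hpm x (lcs_le X j hx)
      exact mem_cz.2 ⟨trivial, fun y hy => D.tow.comm i (Subgroup.commutator_mem_commutator hy
        (pow_mem_of hr (Finset.prod_pos fun a _ => (D.tow.prime a).pos) he
          ((hF.towerExp G h q L D.tow).2 x (hX (lcs_le X j hx)))))⟩
    · rw [← commutatorElement_inv]
      refine inv_mem (hpi X hX hpm (Subgroup.commutator_mem_commutator ?_ hy))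
      simpa using pow_mem_mu X (j + 1) 1 hx
  refine Subgroup.commutator_le.2 fun x hx y hy => ?_
  rw [← commutatorElement_inv]
  exact inv_mem ((mem_cz.1 (h1 hx)).2 y hy)

theorem remove (hF : BFin) (h1 : SR1) (h2 : SR2) {r : ℕ} (hr : r.Prime) (hrq : r ≠ q i)
    (H : BB S w h q c i e (insert (r, 0, 1) 𝒮)) : BB S w h q c i e 𝒮 := by
  have key : ∀ j, BB S w h q c i e (insert (r, j, 1) 𝒮) := by
    intro j
    induction j with
    | zero => exact H
    | succ j ih =>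
      refine next hF ?_
      generalize ∏ a ∈ Finset.range h, q a = s
      induction s with
      | zero => simpa using ih
      | succ s ihs => exact round h1 h2 hrq ihs
  intro G _ L g D hp
  refine key e G L g (dat_insert D hr fun X hX _ => ?_) hp
  exact (Subgroup.commutator_mono ((mu_le X e 1).trans
    ((Subgroup.lowerCentralSeries_mono e hX).trans D.nil)) le_rfl).trans (D.tow.comm i)

theorem down (hF : BFin) (hU : SUp) (h1 : SR1) (h2 : SR2)
    (H : BB S w h q c (i + 1) (e + c) ∅) : BB S w h q c i e ∅ := by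
  intro G _ L g D hp
  have hq := D.tow.prime
  have key : ∀ m, BB S w h q c i e {t | ∃ a, a < m ∧ q a ≠ q i ∧ t = (q a, 0, 1)} →
      BB S w h q c i e ∅ := by
    intro m
    induction m with
    | zero => simp
    | succ m ih =>
      intro H'
      refine ih ?_
      by_cases hm : q m = q i
      · convert H' using 3 with t
        refine exists_congr fun a => ⟨fun h => ⟨h.1.trans (Nat.lt_succ_self m), h.2⟩, fun h => ⟨?_, h.2⟩⟩
        rcases Nat.lt_succ_iff_lt_or_eq.1 h.1 with h3 | rfl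
        · exact h3
        · exact absurd hm h.2.1
      · refine remove hF h1 h2 (hq m) hm fun G _ L g D hp => H' G L g (dat_mono D ?_) hp
        rintro _ ⟨a, ha, h3, rfl⟩
        rcases Nat.lt_succ_iff_lt_or_eq.1 ha with h4 | rfl
        · exact Or.inr ⟨a, h4, h3, rfl⟩
        · exact Or.inl rfl
  refine key h (fun G _ L g D hp => H G L g ⟨D.inV, D.tow, D.st, ?_, by simp⟩ hp) G L g D hp
  exact hU S h q c i e _ G L D fun a ha h3 => (D.pis _ ⟨a, ha, h3, rfl⟩).2

end FinA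

open FinA in
theorem fin (hF : BFin) (hN : SNil) (hU : SUp) (h1 : SR1) (h2 : SR2) : SFin := by
  intro S k w G _ g h q L c hV hg hw ht hc hs
  have key : ∀ t i e, i + t = h → BB S w h q c i e ∅ := by
    intro t
    induction t with
    | zero =>
      intro i e hi G _ L g D hp
      obtain rfl : i = h := hi
      exact hN S k w G g (L 0) _ e D.inV hp (Finset.prod_pos fun a _ => (D.tow.prime a).pos)
        (hF.towerExp G i q L D.tow).2 (le_bot_iff.1 (D.tow.bot ▸ D.nil))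
    | succ t ih => exact fun i e hi => down hF hU h1 h2 (ih (i + 1) (e + c) (by omega))
  exact key h 0 0 (Nat.zero_add h) G L g ⟨hV, ht, hs, le_rfl, by simp⟩ ⟨hg, hw, hc⟩

end Pool.Agent.MP_5c28a4_al.H89S
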