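import Pool.Agent.MP_5c28a4_al.H89S.Spec

set_option autoImplicit false

namespace Pool.Agent.MP_5c28a4_al.H89S

theorem exists_fin (w : FF) : ∃ (k : ℕ) (w' : FreeGroup (Fin k)), FreeGroup.map Fin.val w' = w := by
  induction w using FreeGroup.induction_on with
  | C1 => exact ⟨0, 1, map_one _⟩
  | of n => exact ⟨n + 1, FreeGroup.of (Fin.last n), rfl⟩
  | inv_of n _ => exact ⟨n + 1, (FreeGroup.of (Fin.last n))⁻¹, rfl⟩
  | mul x y hx hy =>
    obtain ⟨k, x, rfl⟩ := hx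
    obtain ⟨l, y, rfl⟩ := hy
    refine ⟨max k l, FreeGroup.map (Fin.castLE (le_max_left k l)) x *
      FreeGroup.map (Fin.castLE (le_max_right k l)) y, ?_⟩
    rw [map_mul, FreeGroup.map.comp, FreeGroup.map.comp]
    rfl

theorem lift_map {G : Type} [Group G] {k : ℕ} (f : FF →* G) (w : FreeGroup (Fin k)) :
    FreeGroup.lift (fun a : Fin k => f (FreeGroup.of a.val)) w = f (FreeGroup.map Fin.val w) :=
  DFunLike.congr_fun (show FreeGroup.lift (fun a : Fin k => f (FreeGroup.of a.val)) =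
    f.comp (FreeGroup.map Fin.val) from FreeGroup.ext_hom _ _ fun a => by simp) w

theorem genFin (hF : BFin) (hG : SGood) (hB : SBdd) (hS : SSt) (hE : SFin) (S : Set FF)
    (h1 : H89.Soluble (vr S)) (h2 : H89.NoIndep (vr S)) : GenFin S := by
  intro w G₀ _ hV f hw
  obtain ⟨u, hu, hA⟩ := hG S h2
  obtain ⟨k, w, rfl⟩ := exists_fin w
  obtain ⟨G, _, g, K, hG, hg, hne, hK, n, hn, hb⟩ :=
    hB S u h1 hu hA k w G₀ hV _ (by rwa [lift_map])
  have hsol : Group.IsSolvable G := by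
    obtain ⟨d, hd⟩ := h1
    exact ⟨d, hd (GrpCat.of G) hG⟩
  have hfg : Group.FG G := Group.fg_iff.2 ⟨_, hg, Set.finite_range g⟩
  obtain ⟨K₁, c, hle, hK₁, hst⟩ := hS u hu G hfg hsol (hA G hG) K hK ⟨n, hn, hb⟩
  obtain ⟨h, q, L, ht, rfl⟩ := hF.tower G K₁ hsol hK₁.1 ⟨n, hn, fun x hx => hb x (hle hx)⟩
  obtain ⟨H, _, hH, hHV, g', hg'⟩ := hE S k w G g h q L c hG hg hne ht hK₁ hst
  refine ⟨H, inferInstance, hH, hHV,
    FreeGroup.lift fun n => if h : n < k then g' ⟨n, h⟩ else 1, ?_⟩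
  rw [← lift_map]
  simpa using hg'

theorem glue (hF : BFin) (hG : SGood) (hB : SBdd) (hS : SSt) (hE : SFin) (hL : SLat) :
    ∀ V : Set GrpCat.{0}, H89.IsVariety V → H89.Soluble V → H89.NoIndep V → H89.MinCond V :=
  hL (genFin hF hG hB hS hE)

end Pool.Agent.MP_5c28a4_al.H89S
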