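import Pool.Agent.MP_5c28a4_al.H89S.Wire1
import Pool.Agent.MP_5c28a4_al.H13S.Str
import Pool.Agent.MP_5c28a4_al.H62S.Haus

set_option autoImplicit false

namespace Pool.Agent.MP_5c28a4_al.H89S

/-- a soluble variety without an infinite independent system of identities has the minimum
condition on subvarieties -/
theorem main :
    ∀ V : Set GrpCat.{0}, H89.IsVariety V → H89.Soluble V → H89.NoIndep V → H89.MinCond V := by
  have hV := bVn bCom
  have hNI := ni hV
  exact wire1 (str bFin hV bCom id0 (su id0) (st3 id0) (fgab hV hNI mag))
    (haus hV (sn hV (n0 hNI)) (hall hV))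

end Pool.Agent.MP_5c28a4_al.H89S
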