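import Pool.Agent.MP_5c28a4_al.H89S.R2a
import Pool.Agent.MP_5c28a4_al.H45S.BUlt

set_option autoImplicit false

namespace Pool.Agent.MP_5c28a4_al.H89S

open scoped commutatorElement
open Filter

namespace R2A

variable {G : Type} [Group G]

/-- the cube property passes to images -/
theorem cube_map {G' I : Type} [Group G'] (π : G →* G') {E : Subgroup G} {Q : Subgroup G'}
    (hQ : Q ≤ E.map π) {N : ℕ} {T : Set (I → G)} (h : Cube N {b | All E b} T) :
    Cube N {b | All Q b} {y | ∃ b, All E b ∧ b ∈ T ∧ y = fun i => π (b i)} := by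
  intro l hl hQl
  have h1 : ∀ y : I → G', ∃ b : I → G, All E b ∧ (All Q y → y = fun i => π (b i)) := fun y => by
    by_cases hy : All Q y
    · choose b hb hb' using fun i => hQ (hy i)
      exact ⟨b, hb, fun _ => funext fun i => (hb' i).symm⟩
    · exact ⟨1, fun _ => one_mem _, fun h => absurd h hy⟩
  choose σ hσ hσ' using h1
  obtain ⟨J, hJ, hne, hT⟩ := h (l.map σ) (by simpa using hl) (by
    intro b hb
    obtain ⟨y, -, rfl⟩ := List.mem_map.1 hb
    exact hσ y)
  obtain ⟨J', hJ', rfl⟩ := List.sublist_map_iff.1 hJ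
  have h2 : ∀ J : List (I → G'), (∀ y ∈ J, All Q y) →
      All E (J.map σ).prod ∧ J.prod = fun i => π ((J.map σ).prod i) := by
    intro J
    induction J with
    | nil => exact fun _ => ⟨fun _ => one_mem _, funext fun _ => by simp⟩
    | cons y J ih =>
      intro hy
      obtain ⟨h3, h4⟩ := ih fun z hz => hy z (List.mem_cons_of_mem _ hz)
      refine ⟨fun i => mul_mem (hσ y i) (h3 i), funext fun i => ?_⟩
      rw [List.map_cons, List.prod_cons, List.prod_cons, Pi.mul_apply, Pi.mul_apply, map_mul,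
        congrFun (hσ' y (hy y List.mem_cons_self)) i, congrFun h4 i]
  obtain ⟨h3, h4⟩ := h2 J' fun y hy => hQl y (hJ'.subset hy)
  exact ⟨J', hJ', fun e => hne (by simp [e]), (J'.map σ).prod, h3, hT, h4⟩

theorem map_lift {G' I : Type} [Group G'] (π : G →* G') (g : I → G) (f : FreeGroup I) :
    FreeGroup.lift (fun i => π (g i)) f = π (FreeGroup.lift g f) :=
  DFunLike.congr_fun (show FreeGroup.lift (fun i => π (g i)) = π.comp (FreeGroup.lift g) from
    FreeGroup.ext_hom _ _ fun i => by simp) f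

/-- periodic points in the quotient by the coprime part -/
theorem stage1 (hV : BVn) (hRL : SRLG) {I J : Type} [Fintype I] [Fintype J] {K P P' Li E : Subgroup G}
    [P.Normal] [P'.Normal] [Li.Normal] {g : I → G} {n r j d d' N : ℕ} {ζ : J → G → ZMod r}
    {T : Set (I → G)} (hr : r.Prime) (hn : 0 < n) (hexp : ∀ x ∈ K, x ^ n = 1) (hK : CoVN K)
    (hsup : P ⊔ P' = K) (hinf : P ⊓ P' = Li) (hgen : Subgroup.closure (Set.range g) ⊔ P = ⊤)
    (hle : P ≤ E ⊔ Li) (hE : E ≤ P) (hd : d ∣ d') (hadd : ∀ a, AddOn (mu P j d ⊔ Li) (ζ a))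
    (hz : ∀ a, ∀ x ∈ mu P j d' ⊔ Li, ζ a x = 0) (hT : Cube N {b | All E b} T) :
    ∃ (R₁ : Subgroup (FreeGroup I)) (b : ℕ → I → G), CoVN R₁ ∧ R₁ ≤ K.comap (FreeGroup.lift g) ∧
      (∀ k, All E (b k) ∧ b k ∈ T) ∧ ∀ f ∈ R₁.lowerCentralSeries j, ∀ a, ∀ᶠ k in atTop,
        ∀ x ∈ P.lowerCentralSeries j, x * (FreeGroup.lift (b k * g) f)⁻¹ ∈ Li →
          ζ a (x ^ d) = 0 := by
  set π := QuotientGroup.mk' P' with hπ
  have hsurj : Function.Surjective π := QuotientGroup.mk'_surjective P'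
  have hLP : Li ≤ P := hinf ▸ inf_le_left
  have hLP' : Li ≤ P' := hinf ▸ inf_le_right
  have hker : ∀ x, π x = 1 ↔ x ∈ P' := fun x => QuotientGroup.eq_one_iff x
  have hmap : P.map π = K.map π := by
    rw [← hsup, Subgroup.map_sup, hπ, QuotientGroup.map_mk'_self, sup_bot_eq]
  have hcov : CoVN (P.map π) := hmap ▸ hV.map _ _ π K hsurj hK
  have h1 : ∀ y : G ⧸ P', ∃ x : G, ∀ z ∈ P, π z = y → x * z⁻¹ ∈ Li := fun y => by
    by_cases hy : y ∈ P.map π
    · obtain ⟨x, hx, rfl⟩ := hy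
      refine ⟨x, fun z hz e => hinf ▸ ⟨P.mul_mem hx (P.inv_mem hz), (hker _).1 ?_⟩⟩
      rw [map_mul, map_inv, e, mul_inv_cancel]
    · exact ⟨1, fun z hz e => absurd ⟨z, hz, e⟩ hy⟩
  choose σ hσ using h1
  have h21 : mu P j d' ⊔ Li ≤ mu P j d ⊔ Li := sup_le_sup_right (mu_dvd P j hd) Li
  have hval : ∀ a, ∀ x ∈ P.lowerCentralSeries j, ζ a (σ (π x) ^ d) = ζ a (x ^ d) := by
    intro a x hx
    refine (zeta_congr h21 (hadd a) (hz a) (Subgroup.mem_sup_left (pow_mem_mu P j d hx))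
      (Subgroup.mem_sup_right ?_)).2
    have := hσ _ x (lcs_le P j hx) rfl
    rw [← QuotientGroup.ker_mk' Li, MonoidHom.mem_ker, map_mul, map_inv, mul_inv_eq_one] at this ⊢
    rw [map_pow, map_pow, this]
  have hl2 : P.lowerCentralSeries (j + 1) ≤ mu P j d' ⊔ Li := le_sup_right.trans le_sup_left
  obtain ⟨R₁, y, hR₁, hR, hidx, hy, hζ⟩ := hRL (G ⧸ P') I (fun i => π (g i)) (P.map π) n r j N
    (by
      have := congrArg (Subgroup.map π) hgen
      rwa [Subgroup.map_sup, MonoidHom.map_closure, Subgroup.map_top_of_surjective _ hsurj,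
        ← Set.range_comp] at this)
    hcov hn
    (by
      rintro _ ⟨x, hx, rfl⟩
      rw [← map_pow, hexp x (hsup ▸ Subgroup.mem_sup_left hx), map_one]
      exact one_mem _)
    hr J (fun a y => ζ a (σ y ^ d))
    (by
      intro a
      rw [← Subgroup.map_lowerCentralSeries]
      rintro _ ⟨x, hx, rfl⟩ _ ⟨y, hy, rfl⟩
      obtain ⟨z, hz', e⟩ := pow_mul_mod P j d hx hy
      have h2 := Subgroup.mem_sup_left (T := Li) (pow_mem_mu P j d hx)
      have h3 := Subgroup.mem_sup_left (T := Li) (pow_mem_mu P j d hy)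
      simp only
      rw [← map_mul, hval a _ (mul_mem hx hy), hval a _ hx, hval a _ hy, e,
        hadd a _ (mul_mem h2 h3) _ (h21 (hl2 hz')), hadd a _ h2 _ h3, hz a _ (hl2 hz'), add_zero])
    (by
      intro a
      rw [← Subgroup.map_lowerCentralSeries]
      rintro _ ⟨x, hx, rfl⟩
      rw [hval a _ (P.lowerCentralSeries_antitone (Nat.le_succ j) hx)]
      exact hz a _ (hl2 (pow_mem hx d)))
    _ (by
      rintro _ ⟨b, hb, -, rfl⟩ i
      exact ⟨b i, hE (hb i), rfl⟩)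
    (cube_map π (Q := P.map π) (by
      refine (Subgroup.map_mono hle).trans ?_
      rw [Subgroup.map_sup]
      refine sup_le le_rfl ?_
      rintro _ ⟨x, hx, rfl⟩
      rw [(hker x).2 (hLP' hx)]
      exact one_mem _) hT)
  choose b hb hbT hyb using hy
  refine ⟨R₁, b, hV.fin _ _ _ (hV.comap _ _ _ _ hcov) hR₁ hR hidx, fun f hf => ?_,
    fun k => ⟨hb k, hbT k⟩, fun f hf a => (hζ f hf a).mono fun k hk x hx e => ?_⟩
  · have h2 := hR hf
    rw [Subgroup.mem_comap, map_lift, hmap, ← Subgroup.mem_comap, hπ,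
      QuotientGroup.comap_map_mk', sup_eq_right.2 (hsup ▸ le_sup_right)] at h2
    exact h2
  · have h2 : (y k * fun i => π (g i)) = fun i => π ((b k * g) i) := by
      funext i
      simp [hyb k]
    have h3 := (hker _).2 (hLP' e)
    rw [map_mul, map_inv, mul_inv_eq_one] at h3
    rw [h2, map_lift, ← h3, hval a x hx] at hk
    exact hk

/-- the words whose values lie in `X` almost everywhere -/
def ae {F : Type} [Group F] (φ : ℕ → F →* G) (X : Subgroup G) : Subgroup F where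
  carrier := {f | ∀ᶠ k in hyperfilter ℕ, φ k f ∈ X}
  one_mem' := Eventually.of_forall fun k => by simp
  mul_mem' := fun ha hb => (Eventually.and ha hb).mono fun k h => by
    simpa using X.mul_mem h.1 h.2
  inv_mem' := fun ha => Eventually.mono ha fun k h => by simpa using h

instance ae_normal {F : Type} [Group F] (φ : ℕ → F →* G) (X : Subgroup G) [h : X.Normal] :
    (ae φ X).Normal :=
  ⟨fun _ hf g => Eventually.mono hf fun k h1 => by simpa using h.conj_mem _ h1 (φ k g)⟩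

theorem ae_lcs {F : Type} [Group F] (φ : ℕ → F →* G) (X : Subgroup G) (j : ℕ) :
    (ae φ X).lowerCentralSeries j ≤ ae φ (X.lowerCentralSeries j) := by
  induction j with
  | zero => exact le_rfl
  | succ j ih =>
    refine Subgroup.commutator_le.2 fun x hx y hy => (Eventually.and (ih hx) hy).mono fun k h => ?_
    rw [map_commutatorElement]
    exact Subgroup.commutator_mem_commutator h.1 h.2

end R2A

open R2A in
theorem r2 (hF : BFin) (hV : BVn) (hS : BSt) (hU : BUlt) (hLS : SLS) (hRL : SRLG) (hTU : STrU)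
    (hTE : STrE) : SR2 := by
  intro S h q c i e 𝒮 k w G _ L _ g r j s P E N ζ u D hr hrq Pl
  classical
  obtain ⟨hLF, hexp⟩ := hF.towerExp G h q L D.tow
  have hi0 : L i ≤ L 0 := D.tow.le (Nat.zero_le i)
  obtain ⟨P₀, P', hPn, hP'n, hP₀, -, hsup, hinf, -⟩ :=
    hS.part G (L 0) (L i) e r hr inferInstance inferInstance hi0 hLF D.nil
  obtain rfl : P = P₀ := by
    ext x
    rw [hP₀, Pl.part]
  have hP0 : P ≤ L 0 := hsup ▸ le_sup_left
  have hd : r ^ s ∣ r ^ (s + 1) := pow_dvd_pow r (Nat.le_succ s)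
  set M := L (i + 1) ⊔ ⨆ a, cz (L (i + 1)) (L i) {x | x ∈ mu P j (r ^ s) ⊔ L i ∧ ζ a x = 0} with hM
  have hML : M ≤ L i := sup_le (D.tow.anti i) (iSup_le fun a => inf_le_left)
  obtain ⟨N', hN'⟩ := hLS G (Fin k) h q L c w i r D.tow D.st hr hrq
  obtain ⟨R₁, b, hcov, hR, hb, hζ⟩ := stage1 hV hRL hr
    (Finset.prod_pos fun a _ => (D.tow.prime a).pos) hexp Pl.covn hsup hinf Pl.gen Pl.le₂ Pl.le₁ hd
    Pl.add Pl.zero (hN' g u M E le_sup_left hML (Pl.le₁.trans hP0) Pl.pm
      (fun x hx => nz_M hd Pl.add Pl.zero (Pl.le₁ hx)) Pl.nz Pl.mem Pl.phi)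
  have h1 : ∀ n, ∃ t : Fin k → G, All M t ∧ FreeGroup.lift (t * (b n * g)) w ≠ 1 := fun n => by
    obtain ⟨u', hu', v, hv, hne⟩ := (hb n).2
    exact ⟨v * u', fun a => mul_mem (Subgroup.mem_sup_left (hv a)) (hu' a), by
      simpa only [mul_assoc] using hne⟩
  choose t ht hne using h1
  set φ : ℕ → FreeGroup (Fin k) →* G := fun n => FreeGroup.lift (t n * (b n * g)) with hφ
  set Φ : FreeGroup (Fin k) →* Ult G := FreeGroup.lift fun a => germ fun n => (t n * (b n * g)) a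
    with hΦ
  have hΦφ : ∀ f, Φ f = germ fun n => φ n f := fun f => hU.lift G (Fin k) _ f
  have hae : ∀ (X : Subgroup G) f, Φ f ∈ star X ↔ f ∈ ae φ X := fun X f => by
    rw [hΦφ]
    exact hU.mem G X _
  have hR0 : ∀ f ∈ R₁, ∀ n, φ n f ∈ L 0 := fun f hf n => by
    have h2 := hR hf
    rw [← comap_lift_mod (L 0) (L 0) le_rfl (u := t n * b n)
      (fun a => mul_mem (hi0 (hML (ht n a))) (hP0 (Pl.le₁ ((hb n).1 a)))) g, mul_assoc] at h2
    exact h2
  have hsurj := Φ.rangeRestrict_surjective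
  have hcov' : CoVN (R₁.map Φ.rangeRestrict) := hV.map _ _ _ _ hsurj hcov
  have D₂ := hTE S h q c i e 𝒮 (Ult G) Φ.range _ Φ.range.subtype (R₁.map Φ.rangeRestrict)
    (hTU S h q c i e 𝒮 G L D) Φ.range.subtype_injective hcov'.1 (by
      rintro _ ⟨f, hf, rfl⟩
      exact (hae _ f).2 (Eventually.of_forall (hR0 f hf)))
  have hK0 : R₁.map Φ.rangeRestrict ⊓ (star (L 0)).comap Φ.range.subtype =
      R₁.map Φ.rangeRestrict := inf_eq_left.2 (by
    rintro _ ⟨f, hf, rfl⟩
    exact (hae _ f).2 (Eventually.of_forall (hR0 f hf)))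
  refine ⟨Φ.range, inferInstance, _, fun a => Φ.rangeRestrict (FreeGroup.of a),
    ⟨D₂.inV, D₂.tow, D₂.st, D₂.nil, ?_⟩, ?_, ?_, ?_⟩
  · rintro τ (rfl | hτ)
    swap
    · exact D₂.pis τ hτ
    refine ⟨hr, fun X hX hpm => ?_⟩
    have hR₁ := hcov.1
    have hXR : X ≤ (R₁ ⊓ ae φ P).map Φ.rangeRestrict := fun x hx => by
      obtain ⟨⟨f, hf, rfl⟩, -⟩ := hX hx
      obtain ⟨e', -, he⟩ := hpm _ hx
      refine ⟨f, ⟨hf, ?_⟩, rfl⟩
      have h2 : f ^ r ^ e' ∈ ae φ (L i) := (hae _ _).1 (by rw [map_pow]; exact he)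
      exact Eventually.mono h2 fun n hn => (Pl.part _).2 ⟨hR0 f hf n, e', by rwa [map_pow] at hn⟩
    have h21 : mu P j (r ^ (s + 1)) ⊔ L i ≤ kz _ ζ Pl.add := fun x hx =>
      ⟨sup_le_sup_right (mu_dvd P j hd) _ hx, fun a => Pl.zero a x hx⟩
    have hA : mu (R₁ ⊓ ae φ P) j (r ^ s) ≤ ae φ (kz _ ζ Pl.add) := by
      refine sup_le ((Subgroup.closure_le _).2 ?_) fun f hf => ?_
      · rintro _ ⟨f, hf, rfl⟩
        have h2 := ae_lcs φ P j (Subgroup.lowerCentralSeries_mono j inf_le_right hf)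
        have h3 := eventually_all.2 fun a => (hζ f
          (Subgroup.lowerCentralSeries_mono j inf_le_left hf) a).filter_mono Nat.hyperfilter_le_atTop
        refine (Eventually.and h2 h3).mono fun n hn => ?_
        rw [map_pow]
        exact ⟨Subgroup.mem_sup_left (pow_mem_mu P j _ hn.1), fun a => hn.2 a _ hn.1
          (lift_mod (L i) (fun a => hML (ht n a)) _ f)⟩
      · exact Eventually.mono (ae_lcs φ P (j + 1)
          (Subgroup.lowerCentralSeries_mono (j + 1) inf_le_right hf)) fun n hn =>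
            h21 (Subgroup.mem_sup_left (Subgroup.mem_sup_right hn))
    have hKM : ∀ x ∈ kz _ ζ Pl.add, ∀ m ∈ M, ⁅x, m⁆ ∈ L (i + 1) := fun x hx m hm => by
      have : M ≤ cz (L (i + 1)) ⊤ {x} := by
        refine sup_le (fun y hy => mem_cz.2 ⟨trivial, ?_⟩)
          (iSup_le fun a y hy => mem_cz.2 ⟨trivial, ?_⟩)
        · rintro _ rfl
          exact mul_mem ((D.tow.normal _).conj_mem _ hy _) (inv_mem hy)
        · rintro _ rfl
          exact (mem_cz.1 hy).2 _ ⟨hx.1, hx.2 a⟩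
      exact (mem_cz.1 (this hm)).2 x rfl
    have hEL : E ⊓ L i ≤ L (i + 1) := fun x hx => by
      obtain ⟨e', he⟩ := Pl.pm x hx.1
      exact mem_of_coprime (((Nat.coprime_primes hr (D.tow.prime i)).2 hrq).pow_left e') he
        (D.tow.pow i x hx.2)
    refine Subgroup.commutator_le.2 fun x hx m hm => ?_
    have hx' := mu_mono hXR j (r ^ s) hx
    rw [← mu_map] at hx'
    obtain ⟨ρ, hρ, rfl⟩ := hx'
    obtain ⟨⟨f, hf, rfl⟩, hfi⟩ := hm
    have hρP : ρ ∈ R₁ ⊓ ae φ P := lcs_le _ j (mu_le _ j _ hρ)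
    rw [← map_commutatorElement]
    refine ⟨⟨_, mul_mem (hR₁.conj_mem f hf ρ) (inv_mem hf), rfl⟩, (hae _ _).2 ?_⟩
    have h2 : ∀ᶠ n in hyperfilter ℕ, ∀ f' ∈ {f' : FreeGroup (Fin k) | f'.norm ≤ f.norm},
        φ n (f'⁻¹ * ρ * f') ∈ kz _ ζ Pl.add :=
      (eventually_all_finite (finite_norm_le _)).2 fun f' _ => hA (by
        simpa using (mu_normal (R₁ ⊓ ae φ P) j (r ^ s)).conj_mem ρ hρ f'⁻¹)
    refine (Eventually.and hρP.2 (Eventually.and ((hae _ f).1 hfi) h2)).mono fun n hn => ?_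
    rw [map_commutatorElement]
    exact point (D.tow.comm i) hML (le_sup_right.trans h21) hKM hEL Pl.nz (hb n).1 (ht n)
      (Pl.le₂ hn.1) hn.2.1 hn.2.2
  · have := congrArg (Subgroup.map Φ.rangeRestrict) (FreeGroup.closure_range_of (Fin k))
    rwa [MonoidHom.map_closure, Subgroup.map_top_of_surjective _ hsurj, ← Set.range_comp] at this
  · rw [map_lift, FreeGroup.lift_of_apply]
    intro h2
    have h3 : Φ w = 1 := congrArg Subtype.val h2
    rw [hΦφ] at h3
    obtain ⟨n, hn⟩ := (BUltA.eq_one.1 h3).exists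
    exact hne n hn
  · exact hK0.symm ▸ hcov'

end Pool.Agent.MP_5c28a4_al.H89S
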