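import Pool.Agent.MP_5c28a4_al.H89S.Base8

set_option autoImplicit false

namespace Pool.Agent.MP_5c28a4_al.H89S.R2A

open scoped commutatorElement

variable {G : Type} [Group G]

/-- the common kernel of a family of additive maps -/
def kz {A J : Type} [AddCommGroup A] (X : Subgroup G) (ζ : J → G → A) (h : ∀ a, AddOn X (ζ a)) :
    Subgroup G where
  carrier := {x | x ∈ X ∧ ∀ a, ζ a x = 0}
  one_mem' := ⟨X.one_mem, fun a => (h a).one⟩
  mul_mem' := fun {x y} hx hy => ⟨X.mul_mem hx.1 hy.1, fun a => by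
    rw [h a x hx.1 y hy.1, hx.2 a, hy.2 a, add_zero]⟩
  inv_mem' := fun {x} hx => ⟨X.inv_mem hx.1, fun a => by
    have := h a x hx.1 x⁻¹ (X.inv_mem hx.1)
    rw [mul_inv_cancel, (h a).one, hx.2 a, zero_add] at this
    exact this.symm⟩

/-- the elements that normalise `E` -/
def nzs (E : Subgroup G) : Subgroup G where
  carrier := {z | Nz z E}
  one_mem' := fun x hx => by simpa using hx
  mul_mem' := fun {a b} ha hb x hx =>
    ⟨by simpa [mul_assoc] using (ha _ (hb x hx).1).1, by simpa [mul_assoc] using (hb _ (ha x hx).2).2⟩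
  inv_mem' := fun {a} ha x hx => ⟨by simpa using (ha x hx).2, by simpa using (ha x hx).1⟩

theorem nz_of_mem {E : Subgroup G} {x : G} (hx : x ∈ E) : Nz x E := fun _ hy =>
  ⟨mul_mem (mul_mem hx hy) (inv_mem hx), mul_mem (mul_mem (inv_mem hx) hy) hx⟩

theorem lift_mem {I : Type} {X : Subgroup G} {g : I → G} (hg : All X g) (f : FreeGroup I) :
    FreeGroup.lift g f ∈ X := by
  have : (FreeGroup.lift g).range ≤ X := by
    rw [FreeGroup.range_lift_eq_closure, Subgroup.closure_le]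
    rintro _ ⟨i, rfl⟩
    exact hg i
  exact this ⟨f, rfl⟩

/-- the commutator at one coordinate -/
theorem point {I : Type} [DecidableEq I] {Y Li M E Kz : Subgroup G} [hY : Y.Normal]
    [hL : Li.Normal] (hc : ⁅Li, Li⁆ ≤ Y) (hM : M ≤ Li) (hK : Li ≤ Kz)
    (hKM : ∀ x ∈ Kz, ∀ m ∈ M, ⁅x, m⁆ ∈ Y) (hEL : E ⊓ Li ≤ Y) {g b t : I → G}
    (hg : ∀ a, Nz (g a) E) (hb : All E b) (ht : All M t) {ρ f : FreeGroup I}
    (hρ : FreeGroup.lift (t * (b * g)) ρ ∈ E ⊔ Li) (hf : FreeGroup.lift (t * (b * g)) f ∈ Li)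
    (hw : ∀ f' : FreeGroup I, f'.norm ≤ f.norm →
      FreeGroup.lift (t * (b * g)) (f'⁻¹ * ρ * f') ∈ Kz) :
    ⁅FreeGroup.lift (t * (b * g)) ρ, FreeGroup.lift (t * (b * g)) f⁆ ∈ Y := by
  have htL : All Li t := fun a => hM (ht a)
  have hC : ∀ y, y ∈ cz Y ⊤ {FreeGroup.lift (t * (b * g)) ρ} ↔
      ⁅FreeGroup.lift (t * (b * g)) ρ, y⁆ ∈ Y := fun y => by simp [mem_cz]
  have h1 : win (b * g) f.norm (Set.range t) ≤ cz Y ⊤ {FreeGroup.lift (t * (b * g)) ρ} := by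
    refine (Subgroup.closure_le _).2 ?_
    rintro _ ⟨f', hf', _, ⟨a, rfl⟩, rfl⟩
    refine (hC _).2 ?_
    have h2 := hw f' hf'
    have h3 := lift_mod Li htL (b * g) f'
    rw [map_mul, map_mul, map_inv] at h2
    generalize FreeGroup.lift (t * (b * g)) ρ = x at h2 ⊢
    generalize FreeGroup.lift (t * (b * g)) f' = y at h2 h3
    generalize FreeGroup.lift (b * g) f' = z at h3 ⊢
    have h4 : z⁻¹ * x * z ∈ Kz := by
      have h7 := hL.conj_mem _ h3 z⁻¹
      have h8 := mul_mem (mul_mem (hK h7) h2) (inv_mem (hK h7))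
      convert h8 using 1
      group
    have h5 := hY.conj_mem _ (hKM _ h4 _ (ht a)) z
    convert h5 using 1
    simp only [commutatorElement_def]
    group
  have h2 : FreeGroup.lift (b * g) f ∈ Li := by
    have := mul_mem (inv_mem (lift_mod Li htL (b * g) f)) hf
    simpa [mul_assoc] using this
  have h3 : Nz (FreeGroup.lift (b * g) f) E :=
    lift_mem (X := nzs E) (fun a => mul_mem (nz_of_mem (hb a)) (hg a)) f
  have h4 : FreeGroup.lift (b * g) f ∈ cz Y ⊤ {FreeGroup.lift (t * (b * g)) ρ} := by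
    refine (hC _).2 ?_
    obtain ⟨ε, hε, l, hl, e⟩ := Subgroup.mem_sup_of_normal_right.1 hρ
    rw [← e]
    generalize FreeGroup.lift (b * g) f = y at h2 h3
    have h5 := hY.conj_mem _ (hc (Subgroup.commutator_mem_commutator hl h2)) ε
    have h6 : ⁅ε, y⁆ ∈ Y := hEL ⟨by
      simpa [commutatorElement_def, mul_assoc] using mul_mem hε (h3 _ (inv_mem hε)).1,
      Li.mul_mem (hL.conj_mem _ h2 ε) (Li.inv_mem h2)⟩
    convert mul_mem h5 h6 using 1
    simp only [commutatorElement_def]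
    group
  have h5 := mul_mem (h1 (win_mem t (b * g) f)) h4
  rw [inv_mul_cancel_right] at h5
  exact (hC _).1 h5

section Layer

variable {P Li Y : Subgroup G} {j d d' : ℕ}

theorem comm_mem [P.Normal] [hL : Li.Normal] {x y : G} (hx : x ∈ P) (hy : y ∈ mu P j d ⊔ Li) :
    ⁅x, y⁆ ∈ mu P j d' ⊔ Li := by
  have : mu P j d ⊔ Li ≤ cz (mu P j d' ⊔ Li) ⊤ {x} := by
    refine sup_le (fun z hz => mem_cz.2 ⟨trivial, ?_⟩) (fun z hz => mem_cz.2 ⟨trivial, ?_⟩)
    · rintro _ rfl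
      refine Subgroup.mem_sup_left (Subgroup.mem_sup_right ?_)
      rw [← commutatorElement_inv]
      exact inv_mem (Subgroup.commutator_mem_commutator (mu_le P j d hz) hx)
    · rintro _ rfl
      exact Subgroup.mem_sup_right (mul_mem (hL.conj_mem _ hz _) (inv_mem hz))
  exact (mem_cz.1 (this hy)).2 x rfl

theorem zeta_congr {A : Type} [AddCommGroup A] {X₁ X₂ : Subgroup G} {ζ : G → A} (hle : X₂ ≤ X₁)
    (hadd : AddOn X₁ ζ) (hz : ∀ x ∈ X₂, ζ x = 0) {x y : G} (hx : x ∈ X₁) (hy : y * x⁻¹ ∈ X₂) :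
    y ∈ X₁ ∧ ζ y = ζ x := by
  have e : y = y * x⁻¹ * x := by simp
  refine ⟨e ▸ mul_mem (hle hy) hx, ?_⟩
  rw [e, hadd _ (hle hy) _ hx, hz _ hy, zero_add]

/-- the group `M_A` is normalised by `P` -/
theorem nz_M {A J : Type} [AddCommGroup A] [P.Normal] [hL : Li.Normal] [hY : Y.Normal]
    {ζ : J → G → A} (hd : d ∣ d') (hadd : ∀ a, AddOn (mu P j d ⊔ Li) (ζ a))
    (hz : ∀ a, ∀ x ∈ mu P j d' ⊔ Li, ζ a x = 0) {x : G} (hx : x ∈ P) :
    Nz x (Y ⊔ ⨆ a, cz Y Li {x | x ∈ mu P j d ⊔ Li ∧ ζ a x = 0}) := by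
  have key : ∀ x ∈ P, (Y ⊔ ⨆ a, cz Y Li {x | x ∈ mu P j d ⊔ Li ∧ ζ a x = 0}) ≤
      (Y ⊔ ⨆ a, cz Y Li {x | x ∈ mu P j d ⊔ Li ∧ ζ a x = 0}).comap
        (MulAut.conj x).toMonoidHom := by
    intro x hx
    refine sup_le (fun y hy => Subgroup.mem_sup_left (hY.conj_mem y hy x)) (iSup_le fun a m hm => ?_)
    refine Subgroup.mem_sup_right (Subgroup.mem_iSup_of_mem a ?_)
    obtain ⟨h1, h2⟩ := mem_cz.1 hm
    refine mem_cz.2 ⟨hL.conj_mem m h1 x, ?_⟩
    rintro y ⟨hy, hy0⟩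
    have h3 := zeta_congr (y := x⁻¹ * y * x) (sup_le_sup_right (mu_dvd P j hd) Li) (hadd a) (hz a) hy
      (by simpa [commutatorElement_def] using comm_mem (d' := d') (inv_mem hx) hy)
    have h4 := hY.conj_mem _ (h2 _ ⟨h3.1, h3.2.trans hy0⟩) x
    convert h4 using 1
    simp only [commutatorElement_def, MulEquiv.toMonoidHom_eq_coe, MonoidHom.coe_coe,
      MulAut.conj_apply]
    group
  intro m hm
  exact ⟨key x hx hm, by simpa using key x⁻¹ (inv_mem hx) hm⟩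

end Layer

end Pool.Agent.MP_5c28a4_al.H89S.R2A
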