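import Pool.Agent.MP_5c28a4_al.H89S.Defs

/-!
Statements of the sections for the soluble case
(plan file `MP_5c28a4_H89_A_plan.md` in the team store).
-/

set_option autoImplicit false

namespace Pool.Agent.MP_5c28a4_al.H89S

open scoped commutatorElement TensorProduct

/-! ### B: basic group theory -/

/-- B1: finiteness, power subgroups -/
structure BFin : Prop where
  locFin : ∀ (G : Type) [Group G] (X : Subgroup G), Group.IsSolvable G →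
    (∀ x ∈ X, IsOfFinOrder x) → LocFin X
  pwNormal : ∀ (G : Type) [Group G] (H : Subgroup G) (n : ℕ), H.Normal → (pw H n).Normal
  pwMap : ∀ (G G' : Type) [Group G] [Group G'] (f : G →* G') (H : Subgroup G) (n : ℕ),
    (pw H n).map f = pw (H.map f) n
  pwFI : ∀ (G : Type) [Group G] (H : Subgroup G) (n : ℕ), Group.IsSolvable G → Group.FG G →
    H.FiniteIndex → 0 < n → (pw H n).FiniteIndex
  pwGen : ∀ (G : Type) [Group G] (H : Subgroup G) (n : ℕ), (pw H n).FG →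
    ∃ T : Finset G, (∀ t ∈ T, t ∈ H) ∧ pw H n = Subgroup.closure {x | ∃ t ∈ T, x = t ^ n}
  del : ∀ (G : Type) [Group G] (L j : ℕ), Group.IsSolvable G → Group.FG G → 0 < L →
    (Del G L j).Normal ∧ (Del G L j).FiniteIndex ∧ (Del G L j).FG
  delMap : ∀ (G G' : Type) [Group G] [Group G'] (f : G →* G') (L j : ℕ), Function.Surjective f →
    (Del G L j).map f = Del G' L j
  tower : ∀ (G : Type) [Group G] (K : Subgroup G), Group.IsSolvable G → K.Normal → Bdd K →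
    ∃ (h : ℕ) (q : ℕ → ℕ) (L : ℕ → Subgroup G), Tower h q L ∧ L 0 = K
  towerExp : ∀ (G : Type) [Group G] (h : ℕ) (q : ℕ → ℕ) (L : ℕ → Subgroup G), Tower h q L →
    LocFin (L 0) ∧ ∀ x ∈ L 0, x ^ (∏ a ∈ Finset.range h, q a) = 1

/-- B2: virtually nilpotent quotients -/
structure BVn : Prop where
  mono : ∀ (G : Type) [Group G] (K K' : Subgroup G), CoVN K → K ≤ K' → K'.Normal → CoVN K'
  inf : ∀ (G : Type) [Group G] (K K' : Subgroup G), CoVN K → CoVN K' → CoVN (K ⊓ K')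
  comap : ∀ (G G' : Type) [Group G] [Group G'] (f : G →* G') (K : Subgroup G'), CoVN K →
    CoVN (K.comap f)
  map : ∀ (G G' : Type) [Group G] [Group G'] (f : G →* G') (K : Subgroup G),
    Function.Surjective f → CoVN K → CoVN (K.map f)
  ofComap : ∀ (G G' : Type) [Group G] [Group G'] (f : G →* G') (K : Subgroup G'),
    Function.Surjective f → CoVN (K.comap f) → CoVN K
  quot : ∀ (G : Type) [Group G] (K : Subgroup G) [K.Normal], CoVN K ↔ VN (G ⧸ K)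
  fin : ∀ (G : Type) [Group G] (K K' : Subgroup G), CoVN K → K'.Normal → K' ≤ K →
    K'.relIndex K ≠ 0 → CoVN K'
  itc : ∀ (G : Type) [Group G] (K D : Subgroup G) (n : ℕ), CoVN K → D.Normal → D.FiniteIndex →
    CoVN (itc K D n)
  lcs : ∀ (G : Type) [Group G] (D : Subgroup G) (n : ℕ), D.Normal → D.FiniteIndex →
    CoVN (D.lowerCentralSeries n)
  fg : ∀ (G : Type) [Group G], Group.FG G → VN G → ∀ H : Subgroup G, H.FG
  rf : ∀ (G : Type) [Group G], Group.FG G → ∀ K : Subgroup G, CoVN K → ∀ x : G, x ∉ K →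
    ∃ D : Subgroup G, D.Normal ∧ D.FiniteIndex ∧ x ∉ D
  cen : ∀ (G : Type) [Group G], Group.FG G → VN G → Infinite G → ∃ Z : Subgroup G, Z.Normal ∧
    Z ≠ ⊥ ∧ Cm Z Z ∧ (∀ z ∈ Z, IsOfFinOrder z → z = 1) ∧
      (Subgroup.centralizer (Z : Set G)).FiniteIndex
  ind : ∀ (G : Type) [Group G], Group.FG G → VN G → ∀ P : Subgroup G → Prop, P ⊥ →
    (∀ H H' : Subgroup G, H ≤ H' → H.relIndex H' ≠ 0 → P H → P H') →
    (∀ (H : Subgroup G) (t : G), Nz t H → (∀ n : ℤ, t ^ n ∈ H → n = 0) → P H →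
      P (H ⊔ Subgroup.zpowers t)) → P ⊤

/-- B3: subgroups of prime power order -/
structure BSt : Prop where
  map : ∀ (G G' : Type) [Group G] [Group G'] (f : G →* G') (X : Subgroup G) (c : ℕ), LocFin X →
    STc X c → STc (X.map f) c
  glob : ∀ (G : Type) [Group G] (K X Y : Subgroup G) (c p : ℕ), p.Prime → LocFin K → STc K c →
    X ≤ K → Y.Normal → PMod p Y X → X.lowerCentralSeries c ≤ Y
  part : ∀ (G : Type) [Group G] (K Y : Subgroup G) (d r : ℕ), r.Prime → K.Normal → Y.Normal →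
    Y ≤ K → LocFin K → K.lowerCentralSeries d ≤ Y → ∃ P P' : Subgroup G, P.Normal ∧ P'.Normal ∧
      (∀ x, x ∈ P ↔ x ∈ K ∧ ∃ e : ℕ, x ^ r ^ e ∈ Y) ∧
      (∀ x, x ∈ P' ↔ x ∈ K ∧ ∃ m : ℕ, m.Coprime r ∧ x ^ m ∈ Y) ∧
      P ⊔ P' = K ∧ P ⊓ P' = Y ∧ ⁅P, P'⁆ ≤ Y
  lift : ∀ (G : Type) [Group G] (X R E : Subgroup G) (r : ℕ), r.Prime → LocFin X → R.Normal →
    R ≤ E → E ≤ X → R.relIndex E ≠ 0 → PMod r R E →
    ∃ J : Subgroup G, Finite J ∧ IsPGroup r J ∧ J ⊔ R = E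
  conj : ∀ (G : Type) [Group G] (X R J J' : Subgroup G) (r : ℕ), r.Prime → LocFin X → R.Normal →
    R ≤ X → (∀ x ∈ R, ∃ m : ℕ, m.Coprime r ∧ x ^ m = 1) → J ≤ X → Finite J → Finite J' →
    IsPGroup r J → IsPGroup r J' → J ⊔ R = J' ⊔ R →
    ∃ x ∈ R, ∀ y, y ∈ J' ↔ x⁻¹ * y * x ∈ J

/-- B4: commutator calculus -/
structure BCom : Prop where
  mem : ∀ (G : Type) [Group G] (X : Subgroup G) (m : ℕ) (x : Fin (m + 1) → G), (∀ i, x i ∈ X) →
    lc m x ∈ X.lowerCentralSeries m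
  gen : ∀ (G : Type) [Group G] (T : Set G) (m : ℕ), (Subgroup.closure T).lowerCentralSeries m ≤
    Subgroup.closure {y | ∃ x : Fin (m + 1) → G, (∀ i, x i ∈ T) ∧ y = lc m x} ⊔
      (Subgroup.closure T).lowerCentralSeries (m + 1)
  mul : ∀ (G : Type) [Group G] (X : Subgroup G) (m : ℕ) (x : Fin (m + 1) → G) (l : Fin (m + 1))
    (a b : G), (∀ i, x i ∈ X) → a ∈ X → b ∈ X →
    lc m (Function.update x l (a * b)) *
      (lc m (Function.update x l a) * lc m (Function.update x l b))⁻¹ ∈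
        X.lowerCentralSeries (m + 1)
  map : ∀ (G G' : Type) [Group G] [Group G'] (f : G →* G') (m : ℕ) (x : Fin (m + 1) → G),
    f (lc m x) = lc m fun i => f (x i)
  add : ∀ (G : Type) [Group G] (X : Subgroup G) (i j : ℕ),
    ⁅X.lowerCentralSeries i, X.lowerCentralSeries j⁆ ≤ X.lowerCentralSeries (i + j + 1)
  top : ∀ (G : Type) [Group G] (X : Subgroup G) (j n : ℕ),
    (pw X n).lowerCentralSeries j ≤ mu X j (n ^ (j + 1))
  muMem : ∀ (G : Type) [Group G] (X : Subgroup G) (j d : ℕ) (x : G), x ∈ mu X j d ↔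
    ∃ y ∈ X.lowerCentralSeries j, ∃ z ∈ X.lowerCentralSeries (j + 1), x = y ^ d * z
  stab : ∀ (N A : Type) [Group N] [AddCommGroup A] (ρ : Representation ℤ N A) (D : Subgroup N)
    (n : ℕ), Kill ρ 1 D (n + 1) → ∀ x ∈ D.lowerCentralSeries n, ρ x = 1

/-- B5: ultrapowers -/
structure BUlt : Prop where
  surj : ∀ (α : Type) (x : Ult α), ∃ y : ℕ → α, x = germ y
  eq : ∀ (α : Type) (x y : ℕ → α), germ x = germ y ↔ ∀ᶠ n in Filter.hyperfilter ℕ, x n = y n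
  mem : ∀ (G : Type) [Group G] (H : Subgroup G) (x : ℕ → G),
    germ x ∈ star H ↔ ∀ᶠ n in Filter.hyperfilter ℕ, x n ∈ H
  cst : ∀ (G : Type) [Group G] (H : Subgroup G) (x : G), cst G x ∈ star H ↔ x ∈ H
  normal : ∀ (G : Type) [Group G] (H : Subgroup G), H.Normal → (star H).Normal
  bot : ∀ (G : Type) [Group G], star (⊥ : Subgroup G) = ⊥
  inf : ∀ (G : Type) [Group G] (H K : Subgroup G), star (H ⊓ K) = star H ⊓ star K
  sup : ∀ (G : Type) [Group G] (H K : Subgroup G), K.Normal → star (H ⊔ K) = star H ⊔ star K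
  comm : ∀ (G : Type) [Group G] (H K : Subgroup G), ⁅star H, star K⁆ ≤ star ⁅H, K⁆
  lcs : ∀ (G : Type) [Group G] (H : Subgroup G) (n : ℕ),
    (star H).lowerCentralSeries n ≤ star (H.lowerCentralSeries n)
  lift : ∀ (G I : Type) [Group G] (x : ℕ → I → G) (w : FreeGroup I),
    FreeGroup.lift (fun i => germ fun n => x n i) w = germ fun n => FreeGroup.lift (x n) w
  inV : ∀ (S : Set FF) (G : Type) [Group G], InV S G → InV S (Ult G)
  solv : ∀ (G : Type) [Group G], Group.IsSolvable G → Group.IsSolvable (Ult G)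
  tower : ∀ (G : Type) [Group G] (h : ℕ) (q : ℕ → ℕ) (L : ℕ → Subgroup G), Tower h q L →
    Tower h q fun a => star (L a)
  st : ∀ (G : Type) [Group G] (X : Subgroup G) (c : ℕ), STc X c → STc (star X) c
  rep : ∀ (G A : Type) [Group G] [AddCommGroup A] (ρ : Representation ℤ G A),
    ∃ σ : Representation ℤ (Ult G) (Ult A), IsUltRep ρ σ ∧ ∀ u, Sat u ρ → Sat u σ

/-- B6: local normaliser, window form -/
def SLNW : Prop := ∀ (G I : Type) [Group G] [Fintype I] [DecidableEq I] (X R : Subgroup G) (r : ℕ),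
  r.Prime → X.Normal → LocFin X → R.Normal → R ≤ X →
  (∀ x ∈ R, ∃ m : ℕ, m.Coprime r ∧ x ^ m = 1) → ∀ (g : I → G) (ℓ : ℕ) (T : Set G), T.Finite →
  (∀ t ∈ T, t ∈ X) → PMod r R (win g ℓ T) →
  ∃ (u : I → G) (J : Subgroup G) (s : G → G), All R u ∧ J ≤ X ∧ Finite J ∧ IsPGroup r J ∧
    (∀ t ∈ T, s t * t⁻¹ ∈ R) ∧ win (u * g) ℓ (s '' T) ≤ J

/-- B6: local normaliser, ultrapower form -/
def SLNU : Prop := ∀ (G I : Type) [Group G] [Fintype I] (R E : Subgroup G) (r m : ℕ),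
  Countable G → r.Prime → R.Normal → E.Normal → LocFin E → R ≤ E → m.Coprime r →
  (∀ x ∈ R, x ^ m = 1) → PMod r R E → ∀ g : I → G,
  ∃ (u : ℕ → I → G) (lam : E →* Ult G), (∀ n, All R (u n)) ∧
    (∀ x : E, lam x * (cst G x)⁻¹ ∈ star R) ∧ (∀ x : E, ∃ e : ℕ, lam x ^ r ^ e = 1) ∧
    (∀ x : E, (x : G) ∈ R → lam x = 1) ∧
    ∀ i, ∀ x y : E, (y : G) = g i * x * (g i)⁻¹ →
      lam y = (germ fun n => u n i * g i) * lam x * (germ fun n => u n i * g i)⁻¹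

/-- B7: decomposition under a coprime elementary abelian action -/
def SDec : Prop := ∀ (G : Type) [Group G] (Y : Subgroup G) [Y.Normal] (M E₁ E₂ : Subgroup G)
  (q r : ℕ), q.Prime → r.Prime → q ≠ r → Y ≤ M → ⁅M, M⁆ ≤ Y → (∀ x ∈ M, x ^ q ∈ Y) →
  (∀ x ∈ E₁, Nz x M) → E₂ ≤ E₁ → E₂.relIndex E₁ ≠ 0 → ⁅E₁, E₁⁆ ≤ E₂ → (∀ x ∈ E₁, x ^ r ∈ E₂) →
  ⁅E₂, M⁆ ≤ Y →
  M ≤ ⨆ ζ : {ζ : G → ZMod r // AddOn E₁ ζ ∧ ∀ x ∈ E₂, ζ x = 0}, cz Y M {x | x ∈ E₁ ∧ ζ.1 x = 0}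

/-! ### S0: from finite groups to the minimum condition -/

/-- Oates-Powell for soluble groups: laws in boundedly many variables decide subvarieties -/
def SOP : Prop := ∀ (G : Type) [Group G], Finite G → Group.IsSolvable G →
  {U : Set GrpCat.{0} | H89.IsVariety U ∧
    ∀ H ∈ U, ∀ w : FF, (∀ f : FF →* G, f w = 1) → H89.Sat H w}.Finite

def SLat : Prop := (∀ S : Set FF, H89.Soluble (vr S) → H89.NoIndep (vr S) → GenFin S) →
  ∀ V : Set GrpCat.{0}, H89.IsVariety V → H89.Soluble V → H89.NoIndep V → H89.MinCond V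

/-! ### S1: identities -/

def SGood : Prop := ∀ S : Set FF, H89.NoIndep (vr S) → ∃ u : ℕ → FF →₀ ℤ,
  (∀ p : ℕ, p.Prime → Good p (u p)) ∧ ∀ (G : Type) [Group G], InV S G → Adm u G

open Classical in
def SID0 : Prop := ∀ (p : ℕ) (u : FF →₀ ℤ), p.Prime → Good p u →
  ∃ (u₀ : FreeGroup ℤ →₀ ℤ) (w₀ : FreeGroup ℤ),
    (∀ w ∈ u₀.support, ((ab w).sum fun _ c => c) = 0) ∧
    (¬ (p : ℤ) ∣ ∑ w ∈ u₀.support.filter (fun w => ∀ a, (p : ℤ) ∣ ab w a - ab w₀ a), u₀ w) ∧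
    ∀ (N A : Type) [Group N] [AddCommGroup A] (ρ : Representation ℤ N A), Sat u ρ →
      ∀ (P : Subgroup N) (y z : N), P.lowerCentralSeries 2 = ⊥ → y ∈ P → Nz z P →
        (u₀.sum fun w c => c • ρ (evz y z w)) = 0

/-- elementary abelian subgroups -/
def SU : Prop := ∀ (p : ℕ) (u : FF →₀ ℤ), p.Prime → Good p u → ∃ (m : ℤ) (n L : ℕ),
  ¬ (p : ℤ) ∣ m ∧ 0 < L ∧
  ∀ (N A : Type) [Group N] [AddCommGroup A] (ρ : Representation ℤ N A), Sat u ρ →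
    ∀ (B : Subgroup N) (z : N), Cm B B → (∀ b ∈ B, b ^ p = 1) → Nz z B →
      Kill ρ m {x | ∃ b ∈ B, x = ⁅z ^ L, b⁆} n

/-- class two -/
def ST3 : Prop := ∀ (p : ℕ) (u : FF →₀ ℤ), p.Prime → Good p u → ∃ (m : ℤ) (n L : ℕ),
  ¬ (p : ℤ) ∣ m ∧ 0 < L ∧
  ∀ (N A : Type) [Group N] [AddCommGroup A] (ρ : Representation ℤ N A), Sat u ρ →
    ∀ (P B : Subgroup N) (z : N), B ≤ P → Cm B P → ⁅P, P⁆ ≤ B → (∀ x ∈ P, x ^ p ∈ B) → Nz z P →
      (∀ b ∈ B, z * b = b * z) → ∀ y ∈ P, Kill ρ m {x | ∃ c ∈ P, x = ⁅y, ⁅z ^ L, c⁆⁆} n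

/-! ### S2: structure theorem -/

def SStr : Prop := ∀ u : ℕ → FF →₀ ℤ, (∀ p : ℕ, p.Prime → Good p (u p)) →
  ∀ (G : Type) [Group G], Group.FG G → Group.IsSolvable G → Adm u G →
    ∃ (K : Subgroup G) (c m d : ℕ), CoVN K ∧ Bdd (K.lowerCentralSeries c) ∧ 0 < m ∧
      (pw K m).lowerCentralSeries d = ⊥

/-! ### S3: tensor powers of the relation module -/

/-- the group ring of a power is Noetherian over the symmetric elements -/
def SNI : Prop := ∀ (Γ : Type) [Group Γ], Group.FG Γ → VN Γ → ∀ (m : ℕ)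
  (c : ℕ → Submodule ℤ (QQ (Fin m → Γ))), Monotone c →
  (∀ n, ∀ x ∈ c n, ∀ s : QQ (Fin m → Γ),
    (∀ σ : Equiv.Perm (Fin m), ∀ g : Fin m → Γ, s.coeff (g ∘ σ) = s.coeff g) → x * s ∈ c n) →
  ∃ n, ∀ k, n ≤ k → c k = c n

/-- the `m`-th tensor power of an element of the group ring -/
noncomputable def nrm {Γ : Type} [Group Γ] (m : ℕ) (x : QQ Γ) : QQ (Fin m → Γ) :=
  (List.ofFn fun l : Fin m =>
    MonoidAlgebra.mapDomainRingHom ℤ (MonoidHom.mulSingle (fun _ : Fin m => Γ) l) x).prod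

/-- the group ring of a power is Noetherian under the diagonal action of the elements of
augmentation one -/
def SN0 : Prop := ∀ (Γ : Type) [Group Γ], Group.FG Γ → VN Γ → ∀ (m : ℕ)
  (c : ℕ → Submodule ℤ (QQ (Fin m → Γ))), Monotone c →
  (∀ n, ∀ x ∈ c n, ∀ s : QQ Γ, (s.coeff.sum fun _ a => a) = 1 → x * nrm m s ∈ c n) →
  ∃ n, ∀ k, n ≤ k → c k = c n

def SN : Prop := ∀ (Γ I : Type) [Group Γ] [Fintype I] (γ : I → Γ), VN Γ →
  Subgroup.closure (Set.range γ) = ⊤ → ∀ (m : ℕ) (J : Type) [Fintype J]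
  (c : ℕ → Submodule ℤ (J → TT γ m)), Monotone c → (∀ n, Inv (c n)) →
  ∃ n, ∀ k, n ≤ k → c k = c n

/-- the lemma of Hall, for `ℤ` and for polynomials over a prime field -/
def SHall : Prop := ∀ (Γ : Type) [Group Γ], Group.FG Γ → VN Γ →
  ∀ (R : Type) [CommRing R] [IsDomain R] [IsPrincipalIdealRing R] (M : Type) [AddCommGroup M]
    [Module R M] (ρ : Representation R Γ M) (T : Finset M),
    Submodule.span R {x | ∃ g, ∃ t ∈ T, x = ρ g t} = ⊤ → ∃ f : R, f ≠ 0 ∧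
      ∀ π : R, Prime π → ¬ π ∣ f → (∀ x : M, ∃ y, x = π • y) → ∀ x : M, ∃ a : R, a ≠ 0 ∧ a • x = 0

def SHaus : Prop := ∀ (Γ I : Type) [Group Γ] [Fintype I] (γ : I → Γ), VN Γ →
  Subgroup.closure (Set.range γ) = ⊤ → ∀ (m : ℕ) (J : Type) [Fintype J]
  (L : Submodule ℤ (J → TT γ m)), Inv L → ∀ t, t ∉ L →
  ∃ (Δ : Subgroup Γ) (n : ℕ), Δ.Normal ∧ Δ.FiniteIndex ∧ 0 < n ∧
    t ∉ L ⊔ Submodule.pi Set.univ fun _ : J => bb γ m Δ n

/-- the Magnus embedding -/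
def SMag : Prop := ∀ (Γ I : Type) [Group Γ] [Fintype I] [DecidableEq I] (γ : I → Γ),
  Subgroup.closure (Set.range γ) = ⊤ → ∃ d : FreeGroup I → I → QQ Γ,
    (∀ f g, d (f * g) = d f + MonoidAlgebra.of ℤ Γ (FreeGroup.lift γ f) • d g) ∧
    (∀ i, d (FreeGroup.of i) = Pi.single i 1) ∧
    (∀ f, del γ (d f) = MonoidAlgebra.of ℤ Γ (FreeGroup.lift γ f) - 1) ∧
    (∀ v ∈ VV γ, ∃ f, FreeGroup.lift γ f = 1 ∧ d f = v) ∧
    ∀ f, FreeGroup.lift γ f = 1 → d f = 0 → f ∈ ⁅(FreeGroup.lift γ).ker, (FreeGroup.lift γ).ker⁆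

def SFGab : Prop := ∀ (G : Type) [Group G], Group.FG G → ∀ K : Subgroup G, CoVN K →
  ∃ T : Finset G, (∀ t ∈ T, t ∈ K) ∧ K ≤ Subgroup.normalClosure (↑T : Set G) ⊔ ⁅K, K⁆

/-! ### S4: reduction to a kernel of finite exponent -/

def SBdd : Prop := ∀ (S : Set FF) (u : ℕ → FF →₀ ℤ), H89.Soluble (vr S) →
  (∀ p : ℕ, p.Prime → Good p (u p)) → (∀ (G : Type) [Group G], InV S G → Adm u G) →
  ∀ (k : ℕ) (w : FreeGroup (Fin k)) (G₀ : Type) [Group G₀], InV S G₀ →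
  ∀ g₀ : Fin k → G₀, FreeGroup.lift g₀ w ≠ 1 →
    ∃ (G : Type) (_ : Group G) (g : Fin k → G) (K : Subgroup G), InV S G ∧
      Subgroup.closure (Set.range g) = ⊤ ∧ FreeGroup.lift g w ≠ 1 ∧ CoVN K ∧ Bdd K

/-! ### S5: bounded class of the subgroups of prime power order -/

def SSt : Prop := ∀ u : ℕ → FF →₀ ℤ, (∀ p : ℕ, p.Prime → Good p (u p)) →
  ∀ (G : Type) [Group G], Group.FG G → Group.IsSolvable G → Adm u G →
  ∀ K : Subgroup G, CoVN K → Bdd K → ∃ (K₁ : Subgroup G) (c : ℕ), K₁ ≤ K ∧ CoVN K₁ ∧ STc K₁ c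

/-! ### S6: cube properties -/

/-- nilpotent groups of finite exponent -/
def SBase : Prop := ∀ (E σ : Type) [Group E] [Fintype σ] (c n : ℕ), 0 < n →
  (⊤ : Subgroup E).lowerCentralSeries c = ⊥ → (∀ x : E, x ^ n = 1) → ∃ N : ℕ, ∀ z : E, z ≠ 1 →
    Cube N Set.univ {x : σ → E | z ∉ Subgroup.closure (Set.range x)}

/-- bounded support -/
def SBS : Prop := ∀ (G I : Type) [Group G] [Fintype I] (h : ℕ) (q : ℕ → ℕ) (L : ℕ → Subgroup G)
  (c : ℕ) (w : FreeGroup I) (a : ℕ), Tower h q L → STc (L 0) c → ∃ N : ℕ,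
  ∀ (g u : I → G) (ι : Type) (M : ι → Subgroup G), (∀ α, M α ≤ L a) →
    All (L (a + 1) ⊔ ⨆ α, M α) u → Phi w (L (a + 1)) (u * g) →
    ∃ (A : Finset ι) (u' : I → G), A.card ≤ N ∧ All (L (a + 1) ⊔ ⨆ α ∈ A, M α) u' ∧
      Phi w (L (a + 1)) (u' * g)

/-- the cube property with components in a prescribed invariant subgroup -/
def SLS : Prop := ∀ (G I : Type) [Group G] [Fintype I] (h : ℕ) (q : ℕ → ℕ) (L : ℕ → Subgroup G)
  (c : ℕ) (w : FreeGroup I) (a r : ℕ), Tower h q L → STc (L 0) c → r.Prime → r ≠ q a → ∃ N : ℕ,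
  ∀ (g u : I → G) (M E : Subgroup G), L (a + 1) ≤ M → M ≤ L a → E ≤ L 0 → PMod r (L (a + 1)) E →
    (∀ x ∈ E, Nz x M) → (∀ i, Nz (g i) E) → All M u → Phi w (L (a + 1)) (u * g) →
    Cube N {b | All E b} {b | ∃ u' : I → G, All M u' ∧ Phi w (L (a + 1)) (u' * b * g)}

/-! ### S7: periodic points -/

/-- abelian form -/
def SRL : Prop := ∀ (Γ I : Type) [Group Γ] [Fintype I] (γ : I → Γ), VN Γ →
  Subgroup.closure (Set.range γ) = ⊤ → ∀ (W : Type) [AddCommGroup W] [Module (QQ Γ) W] (n : ℕ),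
  0 < n → (∀ x : W, n • x = 0) → ∀ (π₀ : VV γ →ₗ[QQ Γ] W) (m : ℕ) (J : Type) [Fintype J]
  (B : J → MultilinearMap ℤ (fun _ : Fin m => W) (ZMod n))
  (𝒢 : Set ((I → QQ Γ) →ₗ[QQ Γ] W)) (T : Finset ((I → QQ Γ) →ₗ[QQ Γ] W)),
  (∀ y, ∃ t ∈ T, y + t ∈ 𝒢) → ∃ Δ : Subgroup Γ, Δ.Normal ∧ Δ.FiniteIndex ∧
    ∀ E : Finset (Fin m → VV γ),
      (∀ v ∈ E, ∃ l, v l ∈ Submodule.span ℤ
        {x : VV γ | ∃ δ ∈ Δ, ∃ x' : VV γ, x = (MonoidAlgebra.of ℤ Γ δ - 1) • x'}) →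
      ∃ y ∈ 𝒢, ∀ j, ∀ v ∈ E, B j (fun l => π₀ (v l) + y (v l : I → QQ Γ)) = 0

/-- group form -/
def SRLG : Prop := ∀ (G I : Type) [Group G] [Fintype I] (g : I → G) (P : Subgroup G) (n r j N : ℕ),
  Subgroup.closure (Set.range g) ⊔ P = ⊤ → CoVN P → 0 < n → (∀ x ∈ P, x ^ n ∈ ⁅P, P⁆) → r.Prime →
  ∀ (J : Type) [Fintype J] (ζ : J → G → ZMod r), (∀ a, AddOn (P.lowerCentralSeries j) (ζ a)) →
  (∀ a, ∀ x ∈ P.lowerCentralSeries (j + 1), ζ a x = 0) → ∀ 𝒢 : Set (I → G), (∀ y ∈ 𝒢, All P y) →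
  Cube N {b | All P b} 𝒢 → ∃ (R₁ : Subgroup (FreeGroup I)) (y : ℕ → I → G), R₁.Normal ∧
    R₁ ≤ P.comap (FreeGroup.lift g) ∧ R₁.relIndex (P.comap (FreeGroup.lift g)) ≠ 0 ∧
    (∀ k, y k ∈ 𝒢) ∧ ∀ f ∈ R₁.lowerCentralSeries j, ∀ a,
      ∀ᶠ k in Filter.atTop, ζ a (FreeGroup.lift (y k * g) f) = 0

/-! ### S8: assembly -/

def SFin : Prop := ∀ (S : Set FF) (k : ℕ) (w : FreeGroup (Fin k)) (G : Type) [Group G]
  (g : Fin k → G) (h : ℕ) (q : ℕ → ℕ) (L : ℕ → Subgroup G) (c : ℕ), InV S G →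
  Subgroup.closure (Set.range g) = ⊤ → FreeGroup.lift g w ≠ 1 → Tower h q L → CoVN (L 0) →
  STc (L 0) c → ∃ (H : Type) (_ : Group H), Finite H ∧ InV S H ∧
    ∃ g' : Fin k → H, FreeGroup.lift g' w ≠ 1

end Pool.Agent.MP_5c28a4_al.H89S
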