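import Pool.Agent.MP_5c28a4_al.H89S.Spec

/-!
Statements of the steps of section S8 (plan file `MP_5c28a4_H89_S8.md` in the team store).
-/

set_option autoImplicit false

namespace Pool.Agent.MP_5c28a4_al.H89S

open scoped commutatorElement

/-- a finite group of the variety in which `w` is not a law -/
def Wit (S : Set FF) {k : ℕ} (w : FreeGroup (Fin k)) : Prop :=
  ∃ (H : Type) (_ : Group H), Finite H ∧ InV S H ∧ ∃ g' : Fin k → H, FreeGroup.lift g' w ≠ 1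

variable {G : Type} [Group G]

/-- the term `mu X j d` of every `r`-subgroup modulo `L i` centralises the layer `i` -/
def PiC (L : ℕ → Subgroup G) (i r j d : ℕ) : Prop :=
  ∀ X : Subgroup G, X ≤ L 0 → PMod r (L i) X → ⁅mu X j d, L i⁆ ≤ L (i + 1)

/-- the data that pass to ultrapowers and to subgroups -/
structure Dat (S : Set FF) (h : ℕ) (q : ℕ → ℕ) (c i e : ℕ) (𝒮 : Set (ℕ × ℕ × ℕ))
    (L : ℕ → Subgroup G) : Prop where
  inV : InV S G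
  tow : Tower h q L
  st : STc (L 0) c
  nil : (L 0).lowerCentralSeries e ≤ L i
  pis : ∀ t ∈ 𝒮, t.1.Prime ∧ PiC L i t.1 t.2.1 t.2.2

/-- a generating tuple at which `w` is not trivial -/
structure Pt {k : ℕ} (w : FreeGroup (Fin k)) (g : Fin k → G) (K : Subgroup G) : Prop where
  gen : Subgroup.closure (Set.range g) = ⊤
  ne : FreeGroup.lift g w ≠ 1
  covn : CoVN K

/-- the state after the first ultrapower -/
structure Plus {k : ℕ} (w : FreeGroup (Fin k)) (L : ℕ → Subgroup G) [∀ a, (L a).Normal]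
    (i r j s : ℕ) (g : Fin k → G) (P E : Subgroup G) {N : ℕ} (ζ : Fin N → G → ZMod r)
    (u : Fin k → G) : Prop where
  gen : Subgroup.closure (Set.range g) ⊔ P = ⊤
  covn : CoVN (L 0)
  part : ∀ x, x ∈ P ↔ x ∈ L 0 ∧ ∃ e : ℕ, x ^ r ^ e ∈ L i
  le₁ : E ≤ P
  le₂ : P ≤ E ⊔ L i
  pm : PMod r (L (i + 1)) E
  nz : ∀ a, Nz (g a) E
  add : ∀ a, AddOn (mu P j (r ^ s) ⊔ L i) (ζ a)
  zero : ∀ a, ∀ x ∈ mu P j (r ^ (s + 1)) ⊔ L i, ζ a x = 0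
  mem : All (L (i + 1) ⊔
    ⨆ a, cz (L (i + 1)) (L i) {x | x ∈ mu P j (r ^ s) ⊔ L i ∧ ζ a x = 0}) u
  phi : Phi w (L (i + 1)) (u * g)

/-- the last stage: nilpotent kernel -/
def SNil : Prop := ∀ (S : Set FF) (k : ℕ) (w : FreeGroup (Fin k)) (G : Type) [Group G]
  (g : Fin k → G) (K : Subgroup G) (n c : ℕ), InV S G → Pt w g K → 0 < n → (∀ x ∈ K, x ^ n = 1) →
  K.lowerCentralSeries c = ⊥ → Wit S w

def STrU : Prop := ∀ (S : Set FF) (h : ℕ) (q : ℕ → ℕ) (c i e : ℕ) (𝒮 : Set (ℕ × ℕ × ℕ))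
  (G : Type) [Group G] (L : ℕ → Subgroup G), Dat S h q c i e 𝒮 L →
    Dat S h q c i e 𝒮 fun a => star (L a)

def STrE : Prop := ∀ (S : Set FF) (h : ℕ) (q : ℕ → ℕ) (c i e : ℕ) (𝒮 : Set (ℕ × ℕ × ℕ))
  (G G' : Type) [Group G] [Group G'] (L : ℕ → Subgroup G) (ι : G' →* G) (K' : Subgroup G'),
  Dat S h q c i e 𝒮 L → Function.Injective ι → K'.Normal → K' ≤ (L 0).comap ι →
    Dat S h q c i e 𝒮 fun a => K' ⊓ (L a).comap ι

/-- one more layer is nilpotent -/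
def SUp : Prop := ∀ (S : Set FF) (h : ℕ) (q : ℕ → ℕ) (c i e : ℕ) (𝒮 : Set (ℕ × ℕ × ℕ))
  (G : Type) [Group G] (L : ℕ → Subgroup G), Dat S h q c i e 𝒮 L →
  (∀ a, a < h → q a ≠ q i → PiC L i (q a) 0 1) → (L 0).lowerCentralSeries (e + c) ≤ L (i + 1)

/-- first half of a round -/
def SR1 : Prop := ∀ (S : Set FF) (h : ℕ) (q : ℕ → ℕ) (c i e : ℕ) (𝒮 : Set (ℕ × ℕ × ℕ))
  (k : ℕ) (w : FreeGroup (Fin k)) (G : Type) [Group G] (L : ℕ → Subgroup G) (g : Fin k → G)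
  (r j s : ℕ), Dat S h q c i e 𝒮 L → Pt w g (L 0) → r ≠ q i → (r, j, r ^ (s + 1)) ∈ 𝒮 →
  ∃ (G₁ : Type) (_ : Group G₁) (L₁ : ℕ → Subgroup G₁) (_ : ∀ a, (L₁ a).Normal) (g₁ : Fin k → G₁)
    (P E : Subgroup G₁) (N : ℕ) (ζ : Fin N → G₁ → ZMod r) (u : Fin k → G₁),
    Dat S h q c i e 𝒮 L₁ ∧ Plus w L₁ i r j s g₁ P E ζ u

/-- second half of a round -/
def SR2 : Prop := ∀ (S : Set FF) (h : ℕ) (q : ℕ → ℕ) (c i e : ℕ) (𝒮 : Set (ℕ × ℕ × ℕ))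
  (k : ℕ) (w : FreeGroup (Fin k)) (G : Type) [Group G] (L : ℕ → Subgroup G) [∀ a, (L a).Normal]
  (g : Fin k → G) (r j s : ℕ) (P E : Subgroup G) (N : ℕ) (ζ : Fin N → G → ZMod r)
  (u : Fin k → G), Dat S h q c i e 𝒮 L → r.Prime → r ≠ q i → Plus w L i r j s g P E ζ u →
  ∃ (G₂ : Type) (_ : Group G₂) (L₂ : ℕ → Subgroup G₂) (g₂ : Fin k → G₂),
    Dat S h q c i e (insert (r, j, r ^ s) 𝒮) L₂ ∧ Pt w g₂ (L₂ 0)

end Pool.Agent.MP_5c28a4_al.H89S
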