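import Pool.Agent.MP_5c28a4_al.H89S.Glue
import Pool.Agent.MP_5c28a4_al.H89S.Fin
import Pool.Agent.MP_5c28a4_al.H89S.R2
import Pool.Agent.MP_5c28a4_al.H21S.Mag
import Pool.Agent.MP_5c28a4_al.H28S.Good
import Pool.Agent.MP_5c28a4_al.H28S.Nil
import Pool.Agent.MP_5c28a4_al.H30S.Rlg
import Pool.Agent.MP_5c28a4_al.H35S.BCom
import Pool.Agent.MP_5c28a4_al.H39S.Dec
import Pool.Agent.MP_5c28a4_al.H3S.Id0
import Pool.Agent.MP_5c28a4_al.H41S.BSt
import Pool.Agent.MP_5c28a4_al.H42S.Bdd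
import Pool.Agent.MP_5c28a4_al.H52S.N0
import Pool.Agent.MP_5c28a4_al.H53S.Up
import Pool.Agent.MP_5c28a4_al.H5S.Ln
import Pool.Agent.MP_5c28a4_al.H81S.Ut3
import Pool.Agent.MP_5c28a4_al.H82S.Sn
import Pool.Agent.MP_5c28a4_al.H84S.Hall
import Pool.Agent.MP_5c28a4_al.H85S.BVn
import Pool.Agent.MP_5c28a4_al.H85S.Tr
import Pool.Agent.MP_5c28a4_al.H86S.Cube
import Pool.Agent.MP_5c28a4_al.H9S.Ni
import Pool.Agent.MP_5c28a4_al.H12S.R1
import Pool.Agent.MP_5c28a4_al.H88S.Lat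
import Pool.Agent.MP_5c28a4_al.H8S.St
import Pool.Agent.MP_5c28a4_al.H60S.Rl
import Pool.Agent.MP_5c28a4_al.H97S.BFin

set_option autoImplicit false

namespace Pool.Agent.MP_5c28a4_al.H89S

theorem wire1 (hStr : SStr) (hHaus : SHaus) :
    ∀ V : Set GrpCat.{0}, H89.IsVariety V → H89.Soluble V → H89.NoIndep V → H89.MinCond V := by
  have hV := bVn bCom
  have hNI := ni hV
  have hN := sn hV (n0 hNI)
  have hA := fgab hV hNI mag
  have hG := rlg hV bCom mag hA (rl hNI hN hHaus)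
  have hW := lnw bSt
  have hU := lnu bSt bUlt hW
  have hT := tru bFin bSt bUlt
  exact glue bFin good (bdd bFin hV bCom hStr mag hN hHaus)
    (st bFin hV bSt bCom bUlt hW hU (su id0) (st3 id0) hA)
    (fin bFin (nil hV (base bCom) hG) (up bFin bSt)
      (r1 bFin hV bSt bUlt hU dec (bs bFin bSt bCom hW dec) hT tre)
      (r2 bFin hV bSt bUlt (ls bFin bSt bCom hW dec) hG hT tre)) (lat sop)

end Pool.Agent.MP_5c28a4_al.H89S
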